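import Mathlib

/-!
# Automorphisms of order prime to `p` and Artin-Schreier elements in valued fields
-/

set_option autoImplicit false

namespace Pool.Agent.J4.H3.NG

/-- a number prime to `p` can be cancelled in a `p`-divisibility -/
theorem cancel {B : Type} [Field B] {Γ : Type} [LinearOrderedCommGroupWithZero Γ]
    (w : Valuation B Γ) {p n : ℕ} (hp : p.Prime) (hn : n.Coprime p) {x b : B} (hx : x ≠ 0)
    (h : w x ^ n = w b ^ p) : ∃ c : B, w x = w c ^ p := by
  obtain ⟨u, -, hu⟩ := Nat.exists_mul_mod_eq_one_of_coprime hn hp.one_lt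
  have h1 : n * u = p * (n * u / p) + 1 := by
    have := Nat.div_add_mod (n * u) p
    omega
  set k := n * u / p with hk
  have hx' : w x ≠ 0 := (Valuation.ne_zero_iff _).2 hx
  refine ⟨b ^ u / x ^ k, ?_⟩
  rw [map_div₀, map_pow, map_pow, div_pow, ← pow_mul, ← pow_mul, mul_comm u p, pow_mul, ← h,
    ← pow_mul, h1, mul_comm k p, pow_succ, mul_comm, mul_div_assoc, div_self (pow_ne_zero _ hx'),
    mul_one]

/-- the values of `x ^ p - x` -/
theorem val_wp {B : Type} [Field B] {Γ : Type} [LinearOrderedCommGroupWithZero Γ]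
    (w : Valuation B Γ) {p : ℕ} (hp : p.Prime) {z : B} (h : 1 < w (z ^ p - z)) :
    w (z ^ p - z) = w z ^ p := by
  have h1 : 1 < w z := by
    by_contra hcon
    rw [not_lt] at hcon
    have h2 : w (z ^ p) ≤ 1 := by
      rw [map_pow]
      exact pow_le_one' hcon p
    have h3 := (w.map_sub (z ^ p) z).trans (max_le h2 hcon)
    exact absurd h (not_lt.2 h3)
  have h2 : w z < w (z ^ p) := by
    rw [map_pow]
    exact lt_self_pow₀ h1 hp.one_lt
  rw [← map_pow]
  exact Valuation.map_sub_eq_of_lt_left w h2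

section core

variable {B : Type} [Field B] {Γ : Type} [LinearOrderedCommGroupWithZero Γ]

/-- the product over the orbit is fixed -/
theorem prod_fixed (g : B ≃+* B) (n : ℕ) (hg : ∀ x, g^[n] x = x) (x : B) :
    g (∏ i ∈ Finset.range n, g^[i] x) = ∏ i ∈ Finset.range n, g^[i] x := by
  rw [map_prod]
  have h1 : ∏ i ∈ Finset.range n, g (g^[i] x) = ∏ i ∈ Finset.range n, g^[i + 1] x :=
    Finset.prod_congr rfl fun i _ => by rw [Function.iterate_succ_apply']
  rw [h1]
  have h2 := Finset.prod_range_succ' (fun i => g^[i] x) n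
  have h3 := Finset.prod_range_succ (fun i => g^[i] x) n
  rw [h3] at h2
  rw [hg x] at h2
  have h4 : g^[0] x = x := rfl
  rw [h4] at h2
  by_cases hx : x = 0
  · subst hx
    refine Finset.prod_congr rfl fun i _ => ?_
    have h5 : ∀ j : ℕ, g^[j] (0 : B) = 0 := by
      intro j
      induction j with
      | zero => rfl
      | succ j ih => rw [Function.iterate_succ_apply', ih, map_zero]
    rw [h5, h5]
  · exact (mul_right_cancel₀ hx h2).symm

/-- **The main computation.** Let `g` be an automorphism of finite order prime to `p` of a field `B` of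
characteristic `p`, not the identity, and let `w` be a valuation of `B` whose value group is not
`p`-divisible, such that the values of the elements fixed by `g` are cofinal. Then some `g b - b` is
not of the form `z ^ p - z`. -/
theorem core (w : Valuation B Γ) (p : ℕ) (hp : p.Prime) (g : B ≃+* B) (n : ℕ)
    (hn : n.Coprime p) (hg : ∀ x, g^[n] x = x) (a₀ : B) (ha₀ : g a₀ ≠ a₀)
    (hcof : ∀ c : B, c ≠ 0 → ∃ y, g y = y ∧ 1 < w y ^ p * w c)
    (π : B) (hπ0 : π ≠ 0) (hπ : ∀ b, w π ≠ w b ^ p) :
    ∃ b, ∀ z, z ^ p - z ≠ g b - b := by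
  by_contra hcon
  push Not at hcon
  -- the values of the elements `g a - a`
  have hA : ∀ a, g a ≠ a → ∃ b, w (g a - a) = w b ^ p := by
    intro a ha
    obtain ⟨y, hy, hlt⟩ := hcof (g a - a) (sub_ne_zero.2 ha)
    obtain ⟨z, hz⟩ := hcon (y ^ p * a)
    have h1 : z ^ p - z = y ^ p * (g a - a) := by
      rw [hz, map_mul, map_pow, hy]
      ring
    have h2 : 1 < w (z ^ p - z) := by
      rw [h1, map_mul, map_pow]
      exact hlt
    have h3 := val_wp w hp h2
    rw [h1, map_mul, map_pow] at h3
    have hy0 : w y ≠ 0 := by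
      intro h
      rw [h, zero_pow hp.ne_zero, zero_mul] at hlt
      exact absurd hlt (not_lt.2 zero_le_one)
    refine ⟨z / y, ?_⟩
    rw [map_div₀, div_pow, ← h3, mul_comm, mul_div_assoc, div_self (pow_ne_zero _ hy0), mul_one]
  -- the values of the fixed elements
  have hB : ∀ x, x ≠ 0 → g x = x → ∃ b, w x = w b ^ p := by
    intro x hx hgx
    obtain ⟨b₂, h2⟩ := hA a₀ ha₀
    have h0 : g (x * a₀) ≠ x * a₀ := by
      rw [map_mul, hgx]
      intro h
      exact ha₀ (mul_left_cancel₀ hx h)
    obtain ⟨b₁, h1⟩ := hA (x * a₀) h0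
    have h3 : g (x * a₀) - x * a₀ = x * (g a₀ - a₀) := by
      rw [map_mul, hgx]
      ring
    rw [h3, map_mul] at h1
    have hc : w (g a₀ - a₀) ≠ 0 := (Valuation.ne_zero_iff _).2 (sub_ne_zero.2 ha₀)
    refine ⟨b₁ / b₂, ?_⟩
    rw [map_div₀, div_pow, ← h1, ← h2, mul_div_assoc, div_self hc, mul_one]
  -- comparison
  have hC : ∀ a, a ≠ 0 → (∀ b, w a ≠ w b ^ p) → w a ≤ w (g a) := by
    intro a _ ha
    by_contra hlt
    rw [not_le] at hlt
    have h1 : g a ≠ a := by
      intro h
      rw [h] at hlt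
      exact lt_irrefl _ hlt
    obtain ⟨b, hb⟩ := hA a h1
    rw [Valuation.map_sub_eq_of_lt_right w hlt] at hb
    exact ha b hb
  have hgn : ∀ s, s ≠ 0 → g s ≠ 0 := fun s hs h => hs ((map_eq_zero g).1 h)
  have hne : ∀ s : B, s ≠ 0 → w s ≠ 0 := fun s hs => (Valuation.ne_zero_iff _).2 hs
  have hpos : ∀ s : B, s ≠ 0 → 0 < w s := fun s hs => zero_lt_iff.2 (hne s hs)
  have h1 : ∀ s, s ≠ 0 → w π * w s ^ p ≤ w (g π) * w (g s) ^ p := by
    intro s hs
    have h2 := hC (π * s ^ p) (mul_ne_zero hπ0 (pow_ne_zero _ hs)) (by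
      intro b hb
      rw [map_mul, map_pow] at hb
      apply hπ (b / s)
      rw [map_div₀, div_pow, ← hb, mul_div_assoc, div_self (pow_ne_zero _ (hne s hs)), mul_one])
    rwa [map_mul, map_pow, map_mul, map_mul, map_pow, map_pow] at h2
  have h2 : ∀ s, s ≠ 0 → w π * w (g s) ^ p ≤ w (g π) * w s ^ p := by
    intro s hs
    have h3 := h1 s⁻¹ (inv_ne_zero hs)
    rw [map_inv₀ g, map_inv₀ w, map_inv₀ w, inv_pow, inv_pow] at h3
    have e1 : 0 < w s ^ p := pow_pos (hpos s hs) p
    have e2 : 0 < w (g s) ^ p := pow_pos (hpos _ (hgn s hs)) p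
    rw [← div_eq_mul_inv, ← div_eq_mul_inv, div_le_div_iff₀ e1 e2] at h3
    exact h3
  have hu : w (g π) = w π := by
    apply le_antisymm
    · have h3 := h2 π hπ0
      by_contra hlt
      rw [not_le] at hlt
      have e1 : w (g π) * w π ^ p < w π * w (g π) ^ p := by
        obtain ⟨k, rfl⟩ : ∃ k, p = k + 1 + 1 := ⟨p - 2, by have := hp.two_le; omega⟩
        have e2 : w π ^ (k + 1) < w (g π) ^ (k + 1) :=
          pow_lt_pow_left₀ hlt zero_le (Nat.succ_ne_zero k)
        calc w (g π) * w π ^ (k + 1 + 1) = (w (g π) * w π) * w π ^ (k + 1) := by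
              rw [pow_succ' _ (k + 1), mul_assoc]
          _ < (w (g π) * w π) * w (g π) ^ (k + 1) :=
              mul_lt_mul_of_pos_left e2 (mul_pos (hpos _ (hgn π hπ0)) (hpos π hπ0))
          _ = w π * w (g π) ^ (k + 1 + 1) := by
              rw [pow_succ' _ (k + 1), ← mul_assoc, mul_comm (w π)]
      exact absurd h3 (not_le.2 e1)
    · have h3 := h1 1 one_ne_zero
      rwa [map_one g, map_one w, one_pow, mul_one, mul_one] at h3
  have hinv : ∀ s, w (g s) = w s := by
    intro s
    by_cases hs : s = 0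
    · rw [hs, map_zero]
    · have e1 := h1 s hs
      have e2 := h2 s hs
      rw [hu] at e1 e2
      have e3 := le_of_mul_le_mul_left e1 (hpos π hπ0)
      have e4 := le_of_mul_le_mul_left e2 (hpos π hπ0)
      exact le_antisymm (le_of_pow_le_pow_left₀ hp.ne_zero zero_le e4)
        (le_of_pow_le_pow_left₀ hp.ne_zero zero_le e3)
  have hit : ∀ (i : ℕ) s, w (g^[i] s) = w s := by
    intro i
    induction i with
    | zero => intro s; rfl
    | succ i ih =>
      intro s
      rw [Function.iterate_succ_apply', hinv, ih]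
  have hitn : ∀ (i : ℕ), g^[i] π ≠ 0 := by
    intro i h
    have h3 := hit i π
    rw [h, map_zero] at h3
    exact hne π hπ0 h3.symm
  obtain ⟨b, hb⟩ := hB _ (Finset.prod_ne_zero_iff.2 fun i _ => hitn i) (prod_fixed g n hg π)
  rw [map_prod, Finset.prod_congr rfl fun i _ => hit i π, Finset.prod_const,
    Finset.card_range] at hb
  obtain ⟨c, hc⟩ := cancel w hp hn hπ0 hb
  exact hπ c hc

end core

section extend

variable {F B : Type} [Field F] [Field B] [Algebra F B] {Γ : Type}
  [LinearOrderedCommGroupWithZero Γ] (v : Valuation F Γ)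

/-- a valuation ring has an extension -/
theorem exists_ext : ∃ W : ValuationSubring B, ∀ x y : F,
    W.valuation (algebraMap F B x) ≤ W.valuation (algebraMap F B y) ↔ v x ≤ v y := by
  obtain ⟨W, hW, hloc⟩ := IsLocalRing.exists_factor_valuationRing
    ((algebraMap F B).comp v.valuationSubring.subtype)
  have h1 : ∀ x : F, v x ≤ 1 → algebraMap F B x ∈ W := fun x hx => hW ⟨x, hx⟩
  have h2 : ∀ x : F, algebraMap F B x ∈ W → v x ≤ 1 := by
    intro x hx
    by_contra hcon
    rw [not_le] at hcon
    have hx0 : x ≠ 0 := by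
      rintro rfl
      rw [map_zero] at hcon
      exact absurd hcon (not_lt.2 zero_le_one)
    have h3 : v x⁻¹ < 1 := by
      rw [map_inv₀]
      exact inv_lt_one_of_one_lt₀ hcon
    have h4 : IsUnit ((((algebraMap F B).comp v.valuationSubring.subtype).codRestrict
        W.toSubring hW) ⟨x⁻¹, h3.le⟩) := by
      refine IsUnit.of_mul_eq_one ⟨algebraMap F B x, hx⟩ (Subtype.ext ?_)
      change algebraMap F B x⁻¹ * algebraMap F B x = 1
      rw [← map_mul, inv_mul_cancel₀ hx0, map_one]
    have h5 := hloc.map_nonunit _ h4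
    obtain ⟨u, hu⟩ := h5
    have h6 : v ((u : v.valuationSubring) : F) = 1 := by
      have := (v.valuationSubring.valuation_eq_one_iff (u : v.valuationSubring)).1 u.isUnit
      exact (v.isEquiv_valuation_valuationSubring.eq_one_iff_eq_one).2 this
    rw [hu] at h6
    exact absurd h6 (ne_of_lt h3)
  refine ⟨W, fun x y => ?_⟩
  by_cases hy : y = 0
  · rw [hy, map_zero, map_zero, map_zero, le_zero_iff, le_zero_iff, map_eq_zero, map_eq_zero,
      map_eq_zero]
  · have hy1 : 0 < v y := zero_lt_iff.2 ((Valuation.ne_zero_iff _).2 hy)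
    have hy2 : 0 < W.valuation (algebraMap F B y) :=
      zero_lt_iff.2 ((Valuation.ne_zero_iff _).2 ((map_ne_zero _).2 hy))
    have e1 : v x ≤ v y ↔ v (x / y) ≤ 1 := by rw [map_div₀, div_le_one₀ hy1]
    have e2 : W.valuation (algebraMap F B x) ≤ W.valuation (algebraMap F B y) ↔
        W.valuation (algebraMap F B (x / y)) ≤ 1 := by
      rw [map_div₀ (algebraMap F B), map_div₀, div_le_one₀ hy2]
    rw [e1, e2, ValuationSubring.valuation_le_one_iff]
    exact ⟨h2 _, h1 _⟩

/-- a small power of the value of an element of a finite extension is the value of an element of the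
base -/
theorem exists_pow {Δ : Type} [LinearOrderedCommGroupWithZero Δ] (w : Valuation B Δ)
    [FiniteDimensional F B] (b : B) (hb : b ≠ 0) : ∃ (k : ℕ) (y : F), 1 ≤ k ∧
      k ≤ Module.finrank F B ∧ y ≠ 0 ∧ w b ^ k = w (algebraMap F B y) := by
  classical
  let P := minpoly F b
  have hint : IsIntegral F b := IsIntegral.of_finite F b
  have hP0 : P ≠ 0 := minpoly.ne_zero hint
  have hsum : ∑ i ∈ P.support, algebraMap F B (P.coeff i) * b ^ i = 0 := by
    have h1 : Polynomial.aeval b P = 0 := minpoly.aeval F b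
    rw [Polynomial.aeval_eq_sum_range' (n := P.natDegree + 1) (Nat.lt_succ_self _)] at h1
    rw [← h1]
    refine Finset.sum_subset_zero_on_sdiff ?_ ?_ ?_
    · intro i hi
      rw [Finset.mem_range]
      exact Nat.lt_succ_of_le (Polynomial.le_natDegree_of_mem_supp i hi)
    · intro i hi
      rw [Finset.mem_sdiff, Polynomial.notMem_support_iff] at hi
      rw [hi.2, zero_smul]
    · intro i _
      rw [Algebra.smul_def]
  have hne : P.support.Nonempty := Polynomial.support_nonempty.2 hP0
  let t : ℕ → B := fun i => algebraMap F B (P.coeff i) * b ^ i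
  obtain ⟨i, hi, hmax⟩ := Finset.exists_max_image P.support (fun i => w (t i)) hne
  have hti : ∀ j ∈ P.support, t j ≠ 0 := by
    intro j hj
    exact mul_ne_zero ((map_ne_zero _).2 (Polynomial.mem_support_iff.1 hj)) (pow_ne_zero _ hb)
  obtain ⟨j, hj, hji, hge⟩ : ∃ j ∈ P.support, j ≠ i ∧ w (t i) ≤ w (t j) := by
    by_contra hcon
    push Not at hcon
    have h1 : ∑ j ∈ P.support.erase i, t j = - t i := by
      rw [eq_neg_iff_add_eq_zero, Finset.sum_erase_add _ _ hi]
      exact hsum
    have h2 : w (∑ j ∈ P.support.erase i, t j) < w (t i) := by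
      refine Valuation.map_sum_lt w ((Valuation.ne_zero_iff _).2 (hti i hi)) fun j hj => ?_
      rw [Finset.mem_erase] at hj
      exact hcon j hj.2 hj.1
    rw [h1, Valuation.map_neg] at h2
    exact lt_irrefl _ h2
  have heq : w (t i) = w (t j) := le_antisymm hge (hmax j hj)
  have key : ∀ i j : ℕ, i ∈ P.support → j ∈ P.support → i < j → w (t i) = w (t j) →
      ∃ (k : ℕ) (y : F), 1 ≤ k ∧ k ≤ Module.finrank F B ∧ y ≠ 0 ∧
        w b ^ k = w (algebraMap F B y) := by
    intro i j hi hj hij h
    have hci : P.coeff i ≠ 0 := Polynomial.mem_support_iff.1 hi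
    have hcj : P.coeff j ≠ 0 := Polynomial.mem_support_iff.1 hj
    refine ⟨j - i, P.coeff i / P.coeff j, by omega, ?_, div_ne_zero hci hcj, ?_⟩
    · have h1 : j ≤ P.natDegree := Polynomial.le_natDegree_of_mem_supp j hj
      have h2 : P.natDegree ≤ Module.finrank F B := minpoly.natDegree_le b
      omega
    · have hcj' : w (algebraMap F B (P.coeff j)) ≠ 0 :=
        (Valuation.ne_zero_iff _).2 ((map_ne_zero _).2 hcj)
      have hbi : w b ^ i ≠ 0 := pow_ne_zero _ ((Valuation.ne_zero_iff _).2 hb)
      simp only [t, map_mul, map_pow] at h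
      rw [map_div₀ (algebraMap F B), map_div₀, eq_div_iff hcj']
      apply mul_right_cancel₀ hbi
      rw [h]
      have h3 : w b ^ j = w b ^ (j - i) * w b ^ i := by
        rw [← pow_add]
        congr 1
        omega
      rw [h3, mul_comm (w b ^ (j - i)), mul_assoc]
  rcases lt_or_gt_of_ne hji with h | h
  · exact key j i hj hi h heq.symm
  · exact key i j hi hj h heq

/-- **extension of valuations**: a valuation whose value group is not `p`-divisible extends to finite
extensions with the same property -/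
theorem extend [FiniteDimensional F B] {p : ℕ} (hp : p.Prime) (a : F) (ha0 : a ≠ 0)
    (ha : ∀ b, v a ≠ v b ^ p) : ∃ W : ValuationSubring B,
      (∀ c : B, c ≠ 0 → ∃ y : F, 1 < W.valuation (algebraMap F B y) ^ p * W.valuation c) ∧
      ∃ π : B, π ≠ 0 ∧ ∀ b, W.valuation π ≠ W.valuation b ^ p := by
  obtain ⟨W, hW⟩ := exists_ext (B := B) v
  have hlt : ∀ x y : F, W.valuation (algebraMap F B x) < W.valuation (algebraMap F B y) ↔
      v x < v y := by
    intro x y
    rw [← not_le, hW, not_le]
  have heq : ∀ x y : F, W.valuation (algebraMap F B x) = W.valuation (algebraMap F B y) ↔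
      v x = v y := by
    intro x y
    rw [le_antisymm_iff, hW, hW, ← le_antisymm_iff]
  refine ⟨W, fun c hc => ?_, ?_⟩
  · -- cofinality
    have hc0 : 0 < W.valuation c := zero_lt_iff.2 ((Valuation.ne_zero_iff _).2 hc)
    rcases le_or_gt 1 (W.valuation c) with h1 | h1
    · -- an element with a large value
      obtain ⟨t, ht⟩ : ∃ t : F, 1 < v t := by
        rcases lt_trichotomy (v a) 1 with h | h | h
        · refine ⟨a⁻¹, ?_⟩
          rw [map_inv₀]
          exact (one_lt_inv₀ (zero_lt_iff.2 ((Valuation.ne_zero_iff _).2 ha0))).2 h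
        · exfalso
          apply ha 1
          rw [h, map_one, one_pow]
        · exact ⟨a, h⟩
      refine ⟨t, ?_⟩
      have h2 : 1 < W.valuation (algebraMap F B t) := by
        have := (hlt 1 t).2 (by rw [map_one]; exact ht)
        rwa [map_one, map_one] at this
      have h3 : 1 < W.valuation (algebraMap F B t) ^ p := one_lt_pow₀ h2 hp.ne_zero
      calc (1 : _) < W.valuation (algebraMap F B t) ^ p := h3
        _ = W.valuation (algebraMap F B t) ^ p * 1 := (mul_one _).symm
        _ ≤ _ := mul_le_mul_right h1 _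
    · obtain ⟨k, y, hk1, -, hy0, hy⟩ := exists_pow W.valuation c hc (F := F)
      refine ⟨y⁻¹, ?_⟩
      rw [map_inv₀ (algebraMap F B), map_inv₀, inv_pow, ← hy, ← pow_mul]
      have h2 : 0 < W.valuation c ^ (k * p) := pow_pos hc0 _
      rw [inv_mul_eq_div, one_lt_div₀ h2]
      have h3 : 2 ≤ k * p := by
        have := hp.two_le
        nlinarith
      obtain ⟨m, hm⟩ : ∃ m, k * p = m + 1 + 1 := ⟨k * p - 2, by omega⟩
      rw [hm, pow_succ]
      have h4 : W.valuation c ^ (m + 1) < 1 := pow_lt_one₀ zero_le h1 (Nat.succ_ne_zero m)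
      calc W.valuation c ^ (m + 1) * W.valuation c < 1 * W.valuation c :=
            mul_lt_mul_of_pos_right h4 hc0
        _ = W.valuation c := one_mul _
  · by_contra hcon
    push Not at hcon
    have hex : ∀ x : B, x ≠ 0 → ∃ b : B, b ≠ 0 ∧ W.valuation x = W.valuation b ^ p := by
      intro x hx
      obtain ⟨b, hb⟩ := hcon x hx
      refine ⟨b, ?_, hb⟩
      rintro rfl
      rw [map_zero, zero_pow hp.ne_zero] at hb
      exact (Valuation.ne_zero_iff _).2 hx hb
    have hit : ∀ m : ℕ, ∃ b : B, b ≠ 0 ∧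
        W.valuation (algebraMap F B a) = W.valuation b ^ p ^ m := by
      intro m
      induction m with
      | zero => exact ⟨algebraMap F B a, (map_ne_zero _).2 ha0, by rw [pow_zero, pow_one]⟩
      | succ m ih =>
        obtain ⟨b, hb0, hb⟩ := ih
        obtain ⟨b', hb0', hb'⟩ := hex b hb0
        exact ⟨b', hb0', by rw [hb, hb', ← pow_mul, ← pow_succ']⟩
    obtain ⟨j, m', hm', hM⟩ := Nat.exists_eq_pow_mul_and_not_dvd
      (Nat.factorial_ne_zero (Module.finrank F B)) p hp.ne_one
    obtain ⟨b, hb0, hb⟩ := hit (j + 1)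
    obtain ⟨k, y, hk1, hk2, hy0, hy⟩ := exists_pow W.valuation b hb0 (F := F)
    have hdvd : k ∣ (Module.finrank F B).factorial := Nat.dvd_factorial (by omega) hk2
    obtain ⟨e, he⟩ := hdvd
    have h1 : W.valuation b ^ (Module.finrank F B).factorial
        = W.valuation (algebraMap F B (y ^ e)) := by
      rw [he, pow_mul, hy, map_pow, map_pow]
    have h2 : W.valuation (algebraMap F B (a ^ m')) = W.valuation (algebraMap F B ((y ^ e) ^ p)) := by
      rw [map_pow, map_pow, hb, ← pow_mul, map_pow (algebraMap F B) (y ^ e) p,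
        map_pow W.valuation, ← h1, hM, ← pow_mul]
      congr 1
      rw [pow_succ]
      ring
    rw [heq, map_pow, map_pow] at h2
    have hcop : m'.Coprime p := ((Nat.Prime.coprime_iff_not_dvd hp).2 hm').symm
    obtain ⟨c, hc⟩ := cancel v hp hcop ha0 h2
    exact ha c hc

end extend

end Pool.Agent.J4.H3.NG
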