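import Mathlib
import Pool.Agent.J4.H3.NG.Val

/-!
# Automorphisms of order prime to `p` and density of the `p`-th powers
-/

set_option autoImplicit false
set_option linter.unusedSectionVars false

namespace Pool.Agent.J4.H3.NG

section dense

variable {F B : Type} [Field F] [Field B] [Algebra F B] [FiniteDimensional F B] {Γ : Type}
  [LinearOrderedCommGroupWithZero Γ] (w : Valuation B Γ)

/-- the elements of `F` are cofinal -/
theorem cof (hnt : ∃ t : F, 1 < w (algebraMap F B t)) (c : B) (hc : c ≠ 0) :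
    ∃ y : F, y ≠ 0 ∧ 1 < w (algebraMap F B y) * w c := by
  obtain ⟨t, ht⟩ := hnt
  have ht0 : t ≠ 0 := by
    rintro rfl
    rw [map_zero, map_zero] at ht
    exact absurd ht (not_lt.2 zero_le_one)
  have hc0 : 0 < w c := zero_lt_iff.2 ((Valuation.ne_zero_iff _).2 hc)
  rcases le_or_gt 1 (w c) with h1 | h1
  · refine ⟨t, ht0, ?_⟩
    calc (1 : Γ) < w (algebraMap F B t) := ht
      _ = w (algebraMap F B t) * 1 := (mul_one _).symm
      _ ≤ _ := mul_le_mul_right h1 _
  · obtain ⟨k, y, hk1, -, hy0, hy⟩ := exists_pow w c hc (F := F)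
    refine ⟨t * y⁻¹, mul_ne_zero ht0 (inv_ne_zero hy0), ?_⟩
    obtain ⟨m, rfl⟩ : ∃ m, k = m + 1 := ⟨k - 1, by omega⟩
    have hy1 : 0 < w (algebraMap F B y) := by
      rw [← hy]
      exact pow_pos hc0 _
    rw [map_mul, map_mul, map_inv₀ (algebraMap F B), map_inv₀, mul_assoc]
    have h2 : 1 ≤ (w (algebraMap F B y))⁻¹ * w c := by
      rw [inv_mul_eq_div, one_le_div₀ hy1, ← hy, pow_succ]
      exact mul_le_of_le_one_left' (pow_le_one' h1.le m)
    calc (1 : Γ) < w (algebraMap F B t) := ht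
      _ = w (algebraMap F B t) * 1 := (mul_one _).symm
      _ ≤ _ := mul_le_mul_right h2 _

theorem cofS (hnt : ∃ t : F, 1 < w (algebraMap F B t)) (s : Finset B) (hs : ∀ c ∈ s, c ≠ 0) :
    ∃ y : F, y ≠ 0 ∧ ∀ c ∈ s, 1 < w (algebraMap F B y) * w c := by
  classical
  induction s using Finset.induction_on with
  | empty => exact ⟨1, one_ne_zero, fun c hc => absurd hc (Finset.notMem_empty c)⟩
  | insert c s hcs ih =>
    obtain ⟨y, hy0, hy⟩ := ih fun c' hc' => hs c' (Finset.mem_insert_of_mem hc')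
    obtain ⟨y', hy0', hy'⟩ := cof w hnt c (hs c (Finset.mem_insert_self c s))
    rcases le_total (w (algebraMap F B y)) (w (algebraMap F B y')) with h | h
    · refine ⟨y', hy0', fun c' hc' => ?_⟩
      rcases Finset.mem_insert.1 hc' with rfl | h2
      · exact hy'
      · exact (hy c' h2).trans_le (mul_le_mul_left h _)
    · refine ⟨y, hy0, fun c' hc' => ?_⟩
      rcases Finset.mem_insert.1 hc' with rfl | h2
      · exact hy'.trans_le (mul_le_mul_left h _)
      · exact hy c' h2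

/-- small elements -/
def Sm (e : F) (x : B) : Prop := ∀ σ : B ≃ₐ[F] B, w (σ x) < w (algebraMap F B e)

variable {w}

theorem Sm.add {e : F} {x y : B} (hx : Sm w e x) (hy : Sm w e y) : Sm w e (x + y) := by
  intro σ
  rw [map_add]
  exact Valuation.map_add_lt w (hx σ) (hy σ)

theorem Sm.sub {e : F} {x y : B} (hx : Sm w e x) (hy : Sm w e y) : Sm w e (x - y) := by
  intro σ
  rw [map_sub]
  exact Valuation.map_sub_lt w (hx σ) (hy σ)

theorem Sm.mul {e : F} {x y : B} (hx : Sm w e x) (hy : Sm w (1 : F) y) : Sm w e (x * y) := by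
  intro σ
  have h1 := hy σ
  rw [map_one, map_one] at h1
  rw [map_mul, map_mul]
  calc w (σ x) * w (σ y) ≤ w (σ x) * 1 := mul_le_mul_right h1.le _
    _ = w (σ x) := mul_one _
    _ < _ := hx σ

theorem Sm.mono {e e' : F} {x : B} (hx : Sm w e x)
    (h : w (algebraMap F B e) ≤ w (algebraMap F B e')) : Sm w e' x :=
  fun σ => (hx σ).trans_le h

variable (w)

theorem mul_small (hnt : ∃ t : F, 1 < w (algebraMap F B t)) (x : B) (e : F) (he : e ≠ 0) :
    ∃ e' : F, e' ≠ 0 ∧ ∀ u, Sm w e' u → Sm w e (x * u) := by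
  classical
  have he' : 0 < w (algebraMap F B e) :=
    zero_lt_iff.2 ((Valuation.ne_zero_iff _).2 ((map_ne_zero _).2 he))
  by_cases hx : x = 0
  · refine ⟨e, he, fun u _ σ => ?_⟩
    rw [hx, zero_mul, map_zero, map_zero]
    exact he'
  have hσx : ∀ σ : B ≃ₐ[F] B, σ x ≠ 0 := fun σ => (map_ne_zero σ).2 hx
  obtain ⟨y, hy0, hy⟩ := cofS w hnt (Finset.univ.image fun σ : B ≃ₐ[F] B =>
    algebraMap F B e / σ x) (by
      intro c hc
      rw [Finset.mem_image] at hc
      obtain ⟨σ, -, rfl⟩ := hc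
      exact div_ne_zero ((map_ne_zero _).2 he) (hσx σ))
  refine ⟨y⁻¹, inv_ne_zero hy0, fun u hu σ => ?_⟩
  have h1 := hy _ (Finset.mem_image_of_mem _ (Finset.mem_univ σ))
  have h2 := hu σ
  have hx0 : 0 < w (σ x) := zero_lt_iff.2 ((Valuation.ne_zero_iff _).2 (hσx σ))
  have hy1 : 0 < w (algebraMap F B y) :=
    zero_lt_iff.2 ((Valuation.ne_zero_iff _).2 ((map_ne_zero _).2 hy0))
  rw [map_div₀, ← mul_div_assoc, one_lt_div₀ hx0] at h1
  rw [map_inv₀ (algebraMap F B), map_inv₀, ← one_div, lt_div_iff₀ hy1] at h2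
  rw [map_mul, map_mul]
  have h3 : w (σ x) * w (σ u) * w (algebraMap F B y) <
      w (algebraMap F B e) * w (algebraMap F B y) := by
    calc w (σ x) * w (σ u) * w (algebraMap F B y)
        = w (σ x) * (w (σ u) * w (algebraMap F B y)) := mul_assoc _ _ _
      _ ≤ w (σ x) * 1 := mul_le_mul_right h2.le _
      _ = w (σ x) := mul_one _
      _ < w (algebraMap F B y) * w (algebraMap F B e) := h1
      _ = _ := mul_comm _ _
  exact lt_of_mul_lt_mul_right' h3

/-- the topological closure of the field of `p`-th powers -/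
def Cl (F : Type) [Field F] [Algebra F B] (p : ℕ) (x : B) : Prop :=
  ∀ e : F, e ≠ 0 → ∃ d : B, Sm w e (x - d ^ p)

variable {w}
variable {p : ℕ} [hpp : Fact p.Prime] [CharP B p]

theorem Cl.sub {x y : B} (hx : Cl w F p x) (hy : Cl w F p y) : Cl w F p (x - y) := by
  intro e he
  obtain ⟨d, hd⟩ := hx e he
  obtain ⟨d', hd'⟩ := hy e he
  refine ⟨d - d', ?_⟩
  have h1 : x - y - (d - d') ^ p = (x - d ^ p) - (y - d' ^ p) := by
    rw [sub_pow_char]
    ring
  rw [h1]
  exact hd.sub hd'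

theorem Cl.zero : Cl w F p (0 : B) := by
  intro e he
  refine ⟨0, fun σ => ?_⟩
  rw [zero_pow hpp.out.ne_zero, sub_zero, map_zero, map_zero]
  exact zero_lt_iff.2 ((Valuation.ne_zero_iff _).2 ((map_ne_zero _).2 he))

theorem Cl.add {x y : B} (hx : Cl w F p x) (hy : Cl w F p y) : Cl w F p (x + y) := by
  have h1 : x + y = x - (0 - y) := by ring
  rw [h1]
  exact hx.sub (Cl.zero.sub hy)

theorem Cl.sum {ι : Type} (s : Finset ι) (f : ι → B) (h : ∀ i ∈ s, Cl w F p (f i)) :
    Cl w F p (∑ i ∈ s, f i) := by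
  classical
  induction s using Finset.induction_on with
  | empty => exact Cl.zero
  | insert i s his ih =>
    rw [Finset.sum_insert his]
    exact (h i (Finset.mem_insert_self i s)).add
      (ih fun j hj => h j (Finset.mem_insert_of_mem hj))

theorem Cl.mul (hnt : ∃ t : F, 1 < w (algebraMap F B t)) {x y : B} (hx : Cl w F p x)
    (hy : Cl w F p y) : Cl w F p (x * y) := by
  intro e he
  obtain ⟨e₁, h10, h1⟩ := mul_small w hnt x e he
  obtain ⟨e₂, h20, h2⟩ := mul_small w hnt y e he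
  obtain ⟨e₃, h30, h31, h32, h33, h34⟩ : ∃ e₃ : F, e₃ ≠ 0 ∧
      w (algebraMap F B e₃) ≤ w (algebraMap F B e₁) ∧
      w (algebraMap F B e₃) ≤ w (algebraMap F B e₂) ∧
      w (algebraMap F B e₃) ≤ w (algebraMap F B e) ∧
      w (algebraMap F B e₃) ≤ w (algebraMap F B 1) := by
    have key : ∀ a b : F, a ≠ 0 → b ≠ 0 → ∃ c : F, c ≠ 0 ∧
        w (algebraMap F B c) ≤ w (algebraMap F B a) ∧
        w (algebraMap F B c) ≤ w (algebraMap F B b) := by
      intro a b ha hb
      rcases le_total (w (algebraMap F B a)) (w (algebraMap F B b)) with h | h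
      · exact ⟨a, ha, le_rfl, h⟩
      · exact ⟨b, hb, h, le_rfl⟩
    obtain ⟨a, ha0, ha1, ha2⟩ := key e₁ e₂ h10 h20
    obtain ⟨b, hb0, hb1, hb2⟩ := key e 1 he one_ne_zero
    obtain ⟨c, hc0, hc1, hc2⟩ := key a b ha0 hb0
    exact ⟨c, hc0, hc1.trans ha1, hc1.trans ha2, hc2.trans hb1, hc2.trans hb2⟩
  obtain ⟨d, hd⟩ := hx e₃ h30
  obtain ⟨d', hd'⟩ := hy e₃ h30
  refine ⟨d * d', ?_⟩
  have h4 : x * y - (d * d') ^ p = x * (y - d' ^ p) + y * (x - d ^ p) -
      (x - d ^ p) * (y - d' ^ p) := by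
    rw [mul_pow]
    ring
  rw [h4]
  exact ((h1 _ (hd'.mono h31)).add (h2 _ (hd.mono h32))).sub ((hd.mono h33).mul (hd'.mono h34))

theorem Cl.pow_mul (hnt : ∃ t : F, 1 < w (algebraMap F B t)) {x : B} (hx : Cl w F p x) (s : B) :
    Cl w F p (s ^ p * x) := by
  intro e he
  obtain ⟨e₁, h10, h1⟩ := mul_small w hnt (s ^ p) e he
  obtain ⟨d, hd⟩ := hx e₁ h10
  refine ⟨s * d, ?_⟩
  rw [mul_pow, ← mul_sub]
  exact h1 _ hd

theorem Cl.one : Cl w F p (1 : B) := by
  intro e he
  refine ⟨1, fun σ => ?_⟩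
  rw [one_pow, sub_self, map_zero, map_zero]
  exact zero_lt_iff.2 ((Valuation.ne_zero_iff _).2 ((map_ne_zero _).2 he))

theorem Cl.pow (hnt : ∃ t : F, 1 < w (algebraMap F B t)) {x : B} (hx : Cl w F p x) (k : ℕ) :
    Cl w F p (x ^ k) := by
  induction k with
  | zero => rw [pow_zero]; exact Cl.one
  | succ k ih => rw [pow_succ]; exact ih.mul hnt hx

/-- **The elements `g a - a` are limits of `p`-th powers.** -/
theorem cl_diff (hnt : ∃ t : F, 1 < w (algebraMap F B t)) (g : B ≃ₐ[F] B)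
    (hg : ∀ b, ∃ z, z ^ p - z = g b - b) (a : B) : Cl w F p (g a - a) := by
  classical
  by_cases hc : g a - a = 0
  · rw [hc]
    exact Cl.zero
  set c := g a - a with hcdef
  intro e he
  have hσc : ∀ σ : B ≃ₐ[F] B, σ c ≠ 0 := fun σ => (map_ne_zero σ).2 hc
  have heB : algebraMap F B e ≠ 0 := (map_ne_zero _).2 he
  obtain ⟨y, hy0, hy⟩ := cofS w hnt (insert 1 ((Finset.univ.image fun σ : B ≃ₐ[F] B => σ c) ∪
    (Finset.univ.image fun σ : B ≃ₐ[F] B => (algebraMap F B e) ^ p / σ c))) (by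
      intro x hx
      rw [Finset.mem_insert, Finset.mem_union, Finset.mem_image, Finset.mem_image] at hx
      rcases hx with rfl | ⟨σ, -, rfl⟩ | ⟨σ, -, rfl⟩
      · exact one_ne_zero
      · exact hσc σ
      · exact div_ne_zero (pow_ne_zero _ heB) (hσc σ))
  have hy1 : 1 < w (algebraMap F B y) := by
    have := hy 1 (Finset.mem_insert_self _ _)
    rwa [map_one, mul_one] at this
  have hy2 : ∀ σ : B ≃ₐ[F] B, 1 < w (algebraMap F B y) * w (σ c) := fun σ =>
    hy _ (Finset.mem_insert_of_mem (Finset.mem_union_left _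
      (Finset.mem_image_of_mem _ (Finset.mem_univ σ))))
  have hy3 : ∀ σ : B ≃ₐ[F] B,
      1 < w (algebraMap F B y) * w ((algebraMap F B e) ^ p / σ c) := fun σ =>
    hy _ (Finset.mem_insert_of_mem (Finset.mem_union_right _
      (Finset.mem_image_of_mem _ (Finset.mem_univ σ))))
  have hyB : algebraMap F B y ≠ 0 := (map_ne_zero _).2 hy0
  obtain ⟨z, hz⟩ := hg ((algebraMap F B y) ^ p * a)
  have hz1 : z ^ p - z = (algebraMap F B y) ^ p * c := by
    rw [hz, map_mul, map_pow, g.commutes, hcdef]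
    ring
  refine ⟨z / algebraMap F B y, fun σ => ?_⟩
  have h1 : c - (z / algebraMap F B y) ^ p = -(z / (algebraMap F B y) ^ p) := by
    have hyp : (algebraMap F B y) ^ p ≠ 0 := pow_ne_zero _ hyB
    rw [div_pow]
    field_simp
    linear_combination -hz1
  rw [h1, map_neg, Valuation.map_neg, map_div₀ σ, map_pow σ, σ.commutes, map_div₀, map_pow]
  have h2 : (σ z) ^ p - σ z = (algebraMap F B y) ^ p * σ c := by
    rw [← map_pow, ← map_sub, hz1, map_mul, map_pow, σ.commutes]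
  set Y := w (algebraMap F B y) with hY
  have hY0 : 0 < Y := zero_lt_one.trans hy1
  have hC0 : 0 < w (σ c) := zero_lt_iff.2 ((Valuation.ne_zero_iff _).2 (hσc σ))
  have hYp : Y ≤ Y ^ p := le_self_pow₀ hy1.le hpp.out.ne_zero
  have h3 : 1 < w ((σ z) ^ p - σ z) := by
    rw [h2, map_mul, map_pow, ← hY]
    exact (hy2 σ).trans_le (mul_le_mul_left hYp _)
  have h4 := val_wp w hpp.out h3
  rw [h2, map_mul, map_pow, ← hY] at h4
  -- compare `p`-th powers
  have h5 : (w (σ z) / Y ^ p) ^ p < w (algebraMap F B e) ^ p := by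
    have hYpp : 0 < (Y ^ p) ^ p := pow_pos (pow_pos hY0 p) p
    rw [div_pow, ← h4, div_lt_iff₀ hYpp]
    have h6 := hy3 σ
    rw [map_div₀, map_pow, ← mul_div_assoc, one_lt_div₀ hC0] at h6
    have h7 : Y ^ p * Y ≤ (Y ^ p) ^ p := by
      calc Y ^ p * Y ≤ Y ^ p * Y ^ p := mul_le_mul_right hYp _
        _ = (Y ^ p) ^ 2 := (sq _).symm
        _ ≤ (Y ^ p) ^ p := pow_le_pow_right' (one_le_pow₀ hy1.le) hpp.out.two_le
    calc Y ^ p * w (σ c) < Y ^ p * (Y * w (algebraMap F B e) ^ p) :=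
          mul_lt_mul_of_pos_left h6 (pow_pos hY0 p)
      _ = w (algebraMap F B e) ^ p * (Y ^ p * Y) := by
          rw [← mul_assoc, mul_comm]
      _ ≤ w (algebraMap F B e) ^ p * (Y ^ p) ^ p := mul_le_mul_right h7 _
  exact lt_of_pow_lt_pow_left₀ p zero_le h5

/-- **Density upstairs.** If `g ≠ 1` has order prime to `p` and all `g b - b` are of the form
`z ^ p - z` then the `p`-th powers are dense. -/
theorem cl_all (hnt : ∃ t : F, 1 < w (algebraMap F B t)) (g : B ≃ₐ[F] B)
    (hg : ∀ b, ∃ z, z ^ p - z = g b - b) (n : ℕ) (hn : n.Coprime p) (hgn : ∀ x, g^[n] x = x)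
    (a₀ : B) (ha₀ : g a₀ ≠ a₀) (b : B) : Cl w F p b := by
  classical
  have hc0 : g a₀ - a₀ ≠ 0 := sub_ne_zero.2 ha₀
  -- the fixed elements
  have hfix : ∀ x, g x = x → Cl w F p x := by
    intro x hx
    have h1 : Cl w F p (x * (g a₀ - a₀)) := by
      have h2 : x * (g a₀ - a₀) = g (x * a₀) - x * a₀ := by
        rw [map_mul, hx]
        ring
      rw [h2]
      exact cl_diff hnt g hg _
    have h2 : Cl w F p ((g a₀ - a₀) ^ (p - 1)) := (cl_diff hnt g hg a₀).pow hnt _
    have h3 := (h1.mul hnt h2).pow_mul hnt (g a₀ - a₀)⁻¹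
    have h4 : ((g a₀ - a₀)⁻¹) ^ p * (x * (g a₀ - a₀) * (g a₀ - a₀) ^ (p - 1)) = x := by
      have h5 : (g a₀ - a₀) * (g a₀ - a₀) ^ (p - 1) = (g a₀ - a₀) ^ p := by
        rw [← pow_succ', Nat.sub_add_cancel hpp.out.one_le]
      rw [mul_assoc x, h5, inv_pow, mul_comm x, ← mul_assoc, inv_mul_cancel₀ (pow_ne_zero _ hc0),
        one_mul]
    rwa [h4] at h3
  -- the sum over the orbit
  have hsum : Cl w F p (∑ i ∈ Finset.range n, g^[i] b) := by
    apply hfix
    rw [map_sum]
    have h1 : ∑ i ∈ Finset.range n, g (g^[i] b) = ∑ i ∈ Finset.range n, g^[i + 1] b :=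
      Finset.sum_congr rfl fun i _ => by rw [Function.iterate_succ_apply']
    rw [h1]
    have h2 := Finset.sum_range_succ' (fun i => g^[i] b) n
    have h3 := Finset.sum_range_succ (fun i => g^[i] b) n
    rw [h3, hgn b] at h2
    exact (add_right_cancel h2).symm
  have hdiff : ∀ i : ℕ, Cl w F p (g^[i] b - b) := by
    intro i
    induction i with
    | zero =>
      have : g^[0] b - b = 0 := sub_self b
      rw [this]
      exact Cl.zero
    | succ i ih =>
      have h1 : g^[i + 1] b - b = (g (g^[i] b) - g^[i] b) + (g^[i] b - b) := by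
        rw [Function.iterate_succ_apply']
        ring
      rw [h1]
      exact (cl_diff hnt g hg _).add ih
  have hnb : Cl w F p ((n : B) * b) := by
    have h1 : (n : B) * b = ∑ i ∈ Finset.range n, g^[i] b -
        ∑ i ∈ Finset.range n, (g^[i] b - b) := by
      rw [← Finset.sum_sub_distrib]
      simp
    rw [h1]
    exact hsum.sub (Cl.sum _ _ fun i _ => hdiff i)
  -- `n` is the `p`-th power of a unit
  have hn0 : (n : B) ≠ 0 := by
    rw [Ne, CharP.cast_eq_zero_iff B p n]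
    intro h
    have h1 := Nat.Coprime.eq_one_of_dvd hn.symm h
    exact hpp.out.one_lt.ne' h1
  have hnp : (n : B) ^ p = n := by
    have h1 := map_natCast (frobenius B p) n
    rwa [frobenius_def] at h1
  have h1 := hnb.pow_mul hnt (n : B)⁻¹
  have h2 : ((n : B)⁻¹) ^ p * ((n : B) * b) = b := by
    rw [inv_pow, hnp, ← mul_assoc, inv_mul_cancel₀ hn0, one_mul]
  rwa [h2] at h1

/-- **Descent of density.** -/
theorem dense_base [IsGalois F B] (hnt : ∃ t : F, 1 < w (algebraMap F B t))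
    (h : ∀ b : B, Cl w F p b) (x e : F) (he : e ≠ 0) :
    ∃ c : F, w (algebraMap F B (x - c ^ p)) < w (algebraMap F B e) := by
  classical
  obtain ⟨η, hη⟩ := Algebra.trace_surjective F B 1
  obtain ⟨e', he', h1⟩ := mul_small w hnt (η ^ p) e he
  obtain ⟨d, hd⟩ := h (algebraMap F B x) e' he'
  refine ⟨Algebra.trace F B (η * d), ?_⟩
  have h2 : algebraMap F B (x - (Algebra.trace F B (η * d)) ^ p) =
      ∑ σ : B ≃ₐ[F] B, σ (η ^ p * (algebraMap F B x - d ^ p)) := by
    have h3 : (algebraMap F B (Algebra.trace F B (η * d))) ^ p =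
        ∑ σ : B ≃ₐ[F] B, (σ (η * d)) ^ p := by
      rw [trace_eq_sum_automorphisms, sum_pow_char]
    have h4 : (1 : B) = ∑ σ : B ≃ₐ[F] B, (σ η) ^ p := by
      rw [← sum_pow_char, ← trace_eq_sum_automorphisms, hη, map_one, one_pow]
    rw [map_sub, map_pow, h3]
    conv_lhs => rw [← one_mul (algebraMap F B x), h4, Finset.sum_mul]
    rw [← Finset.sum_sub_distrib]
    refine Finset.sum_congr rfl fun σ _ => ?_
    simp only [map_mul, map_pow, map_sub, AlgEquiv.commutes]
    ring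
  rw [h2]
  refine Valuation.map_sum_lt w ((Valuation.ne_zero_iff _).2 ((map_ne_zero _).2 he)) fun σ _ => ?_
  exact h1 _ hd σ

end dense

end Pool.Agent.J4.H3.NG
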