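import Mathlib
import Pool.Agent.J4.H3.NG.Dense

/-!
# Galois extensions all of whose finite extensions are closed under Artin-Schreier extensions
-/

set_option autoImplicit false

namespace Pool.Agent.J4.H3.NG

/-- automorphisms fix the solutions of `e ^ p = e` -/
theorem fix_prime {Ω : Type} [Field Ω] {p : ℕ} [Fact p.Prime] [CharP Ω p] (g : Ω →+* Ω) {e : Ω}
    (he : e ^ p = e) : g e = e := by
  have h1 : e ∈ (⊥ : Subfield Ω) := (Subfield.mem_bot_iff_pow_eq_self Ω p).2 he
  have h2 : (⊥ : Subfield Ω) ≤ RingHom.eqLocusField g (RingHom.id Ω) := bot_le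
  exact h2 h1

theorem wp_add {Ω : Type} [Field Ω] {p : ℕ} [Fact p.Prime] [CharP Ω p] (x y : Ω) :
    (x - y) ^ p - (x - y) = (x ^ p - x) - (y ^ p - y) := by
  rw [sub_pow_char]
  ring

section

variable {F N Ω : Type} [Field F] [Field N] [Field Ω] [Algebra F N] [Algebra F Ω] [Algebra N Ω]
  [IsScalarTower F N Ω]

/-- every equation `y ^ p - y = b` has a solution in the field generated by `b` over `N` -/
def Clo (N Ω : Type) [Field N] [Field Ω] [Algebra N Ω] (p : ℕ) : Prop :=
  ∀ b : Ω, ∃ y ∈ IntermediateField.adjoin N {b}, y ^ p - y = b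

/-- an automorphism over `N` and an automorphism over a normal subfield `B` commute on the field
generated by `N` and an element of `B` -/
theorem comm_on [Normal F N] (g : Ω ≃ₐ[N] Ω) (B : IntermediateField F Ω) [Normal F B]
    (h : Ω ≃ₐ[F] Ω) (hh : ∀ x ∈ B, h x = x) (b : Ω) (hb : b ∈ B) (y : Ω)
    (hy : y ∈ IntermediateField.adjoin N {b}) : h (g y) = g (h y) := by
  have hgB : ∀ x ∈ B, g x ∈ B := by
    intro x hx
    have h1 := AlgEquiv.restrictNormal_commutes (g.restrictScalars F) B ⟨x, hx⟩
    have h2 : g x = (((g.restrictScalars F).restrictNormal B ⟨x, hx⟩ : B) : Ω) := h1.symm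
    rw [h2]
    exact SetLike.coe_mem _
  induction hy using IntermediateField.adjoin_induction with
  | mem x hx =>
    rw [Set.mem_singleton_iff] at hx
    subst hx
    rw [hh _ (hgB _ hb), hh _ hb]
  | algebraMap x =>
    have h1 : algebraMap N Ω (h.restrictNormal N x) = h (algebraMap N Ω x) :=
      AlgEquiv.restrictNormal_commutes h N x
    rw [g.commutes, ← h1, g.commutes]
  | add x y _ _ hx hy => rw [map_add, map_add, map_add, map_add, hx, hy]
  | inv x _ hx => rw [map_inv₀, map_inv₀, map_inv₀, map_inv₀, hx]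
  | mul x y _ _ hx hy => rw [map_mul, map_mul, map_mul, map_mul, hx, hy]

/-- the elements `g b - b` are of the form `z ^ p - z` -/
theorem star [Normal F N] [IsGalois F Ω] {p : ℕ} [Fact p.Prime] [CharP Ω p] (H : Clo N Ω p)
    (g : Ω ≃ₐ[N] Ω) (B : IntermediateField F Ω) [Normal F B] (b : Ω) (hb : b ∈ B) :
    ∃ z ∈ B, z ^ p - z = g b - b := by
  obtain ⟨y, hy, hyb⟩ := H b
  refine ⟨g y - y, ?_, ?_⟩
  · have hB : IntermediateField.fixedField B.fixingSubgroup = B :=
      InfiniteGalois.fixedField_fixingSubgroup B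
    rw [← hB, IntermediateField.mem_fixedField_iff]
    intro h hh
    rw [IntermediateField.mem_fixingSubgroup_iff] at hh
    have h1 : h (g y) = g (h y) := comm_on g B h hh b hb y hy
    have h2 : (h y - y) ^ p = h y - y := by
      have h3 : (h y - y) ^ p - (h y - y) = 0 := by
        rw [wp_add, ← map_pow, ← map_sub, hyb, hh b hb, sub_self]
      exact sub_eq_zero.1 h3
    have h4 : g (h y - y) = h y - y := fix_prime (g : Ω →+* Ω) h2
    rw [map_sub] at h4
    rw [map_sub, h1]
    linear_combination h4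
  · rw [wp_add, ← map_pow, ← map_sub, hyb]

/-- there are no automorphisms of order `p` -/
theorem no_order_p {p : ℕ} [hpp : Fact p.Prime] [CharP Ω p] (H : Clo N Ω p) (g : Ω ≃ₐ[N] Ω)
    (x : Ω) (hx : g x ≠ x) (hpx : g^[p] x = x) : False := by
  classical
  have hcN : CharP N p := (algebraMap N Ω).charP_iff_charP p |>.2 inferInstance
  let G : Module.End N Ω := g.toLinearMap
  have hcE : CharP (Module.End N Ω) p :=
    charP_of_injective_algebraMap (algebraMap N (Module.End N Ω)).injective p
  have hG : ∀ (m : ℕ) (z : Ω), (G ^ m) z = g^[m] z := by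
    intro m z
    rw [Module.End.coe_pow]
    rfl
  have h1 : (G - 1) ^ p = G ^ p - 1 := by
    rw [sub_pow_char_of_commute p (Commute.one_right G), one_pow]
  have h2 : ((G - 1) ^ p) x = 0 := by
    rw [h1, LinearMap.sub_apply, hG, hpx]
    exact sub_self x
  have hex : ∃ m : ℕ, ((G - 1) ^ m) x = 0 := ⟨p, h2⟩
  set m := Nat.find hex with hm
  have hm0 : ((G - 1) ^ m) x = 0 := Nat.find_spec hex
  have hx0 : x ≠ 0 := by
    rintro rfl
    exact hx (map_zero g)
  have hm1 : m ≠ 0 := by
    intro h
    rw [h] at hm0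
    exact hx0 hm0
  have hm2 : m ≠ 1 := by
    intro h
    rw [h, pow_one] at hm0
    exact hx (sub_eq_zero.1 hm0)
  obtain ⟨k, hk⟩ : ∃ k, m = k + 1 + 1 := ⟨m - 2, by omega⟩
  have hv : ((G - 1) ^ (k + 1)) x ≠ 0 := by
    have := Nat.find_min hex (m := k + 1) (by omega)
    exact this
  set v := ((G - 1) ^ (k + 1)) x with hvdef
  set s := ((G - 1) ^ k) x with hsdef
  have e1 : g s - s = v := by
    have : v = (G - 1) s := by
      rw [hvdef, hsdef, pow_succ', Module.End.mul_apply]
    rw [this]
    rfl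
  have e2 : g v = v := by
    have : (0 : Ω) = (G - 1) v := by
      rw [← hm0, hk, pow_succ', Module.End.mul_apply]
    exact (sub_eq_zero.1 this.symm)
  let u := s / v
  have e3 : g u = u + 1 := by
    change g (s / v) = s / v + 1
    rw [map_div₀, e2, show g s = s + v by rw [← e1]; ring, add_div, div_self hv]
  have e4 : g (u ^ p - u) = u ^ p - u := by
    rw [map_sub, map_pow, e3, add_pow_char, one_pow]
    ring
  obtain ⟨y, hy, hyb⟩ := H (u ^ p - u)
  have e5 : g y = y := by
    clear hyb
    induction hy using IntermediateField.adjoin_induction with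
    | mem z hz =>
      rw [Set.mem_singleton_iff] at hz
      subst hz
      exact e4
    | algebraMap z => exact g.commutes z
    | add z z' _ _ hz hz' => rw [map_add, hz, hz']
    | inv z _ hz => rw [map_inv₀, hz]
    | mul z z' _ _ hz hz' => rw [map_mul, hz, hz']
  have e6 : (u - y) ^ p = u - y := by
    have : (u - y) ^ p - (u - y) = 0 := by rw [wp_add, hyb, sub_self]
    exact sub_eq_zero.1 this
  have e7 : g (u - y) = u - y := fix_prime (g : Ω →+* Ω) e6
  rw [map_sub, e5, e3] at e7
  have e8 : (1 : Ω) = 0 := by linear_combination e7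
  exact one_ne_zero e8

/-- the restriction of an automorphism over `N` to a finite normal extension of `F` -/
noncomputable def rs (g : Ω ≃ₐ[N] Ω) (B : IntermediateField F Ω) [Normal F B] : B ≃ₐ[F] B :=
  (g.restrictScalars F).restrictNormal B

theorem rs_coe (g : Ω ≃ₐ[N] Ω) (B : IntermediateField F Ω) [Normal F B] (b : B) :
    ((rs g B b : B) : Ω) = g b :=
  AlgEquiv.restrictNormal_commutes (g.restrictScalars F) B b

theorem rs_iter (g : Ω ≃ₐ[N] Ω) (B : IntermediateField F Ω) [Normal F B] (i : ℕ) (b : B) :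
    (((rs g B)^[i] b : B) : Ω) = g^[i] (b : Ω) := by
  induction i generalizing b with
  | zero => rfl
  | succ i ih => rw [Function.iterate_succ_apply', Function.iterate_succ_apply', rs_coe, ih]

theorem rs_order (g : Ω ≃ₐ[N] Ω) (B : IntermediateField F Ω) [Normal F B] (b : B) :
    (rs g B)^[orderOf (rs g B)] b = b := by
  have h1 : rs g B ^ orderOf (rs g B) = 1 := pow_orderOf_eq_one _
  rw [← AlgEquiv.coe_pow, h1]
  rfl

theorem rs_star [Normal F N] [IsGalois F Ω] {p : ℕ} [Fact p.Prime] [CharP Ω p] (H : Clo N Ω p)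
    (g : Ω ≃ₐ[N] Ω) (B : IntermediateField F Ω) [Normal F B] (b : B) :
    ∃ z : B, z ^ p - z = rs g B b - b := by
  obtain ⟨z, hz, hzb⟩ := star (F := F) H g B (b : Ω) b.2
  refine ⟨⟨z, hz⟩, Subtype.ext ?_⟩
  change z ^ p - z = ((rs g B b : B) : Ω) - (b : Ω)
  rw [rs_coe, hzb]

/-- the orders are prime to `p` -/
theorem rs_coprime {p : ℕ} [hpp : Fact p.Prime] [CharP Ω p]
    (H : Clo N Ω p) (g : Ω ≃ₐ[N] Ω) (B : IntermediateField F Ω) [Normal F B]
    [FiniteDimensional F B] : (orderOf (rs g B)).Coprime p := by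
  set n := orderOf (rs g B) with hn
  have hn0 : 0 < n := orderOf_pos _
  by_contra hcop
  have hd : p ∣ n := by
    by_contra h
    exact hcop ((Nat.Prime.coprime_iff_not_dvd hpp.out).2 h).symm
  obtain ⟨m, hm⟩ := hd
  have hm0 : 0 < m := Nat.pos_of_ne_zero (by rintro rfl; omega)
  have hmn : m < n := by
    rw [hm]
    have := hpp.out.two_le
    nlinarith
  have h1 : rs g B ^ m ≠ 1 := pow_ne_one_of_lt_orderOf hm0.ne' hmn
  obtain ⟨b, hb⟩ : ∃ b : B, (rs g B)^[m] b ≠ b := by
    by_contra hcon
    push Not at hcon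
    apply h1
    ext b
    rw [AlgEquiv.coe_pow, hcon]
    rfl
  refine no_order_p H (g ^ m) (b : Ω) ?_ ?_
  · rw [AlgEquiv.coe_pow, ← rs_iter]
    exact fun h => hb (Subtype.ext h)
  · rw [AlgEquiv.coe_pow, ← Function.iterate_mul, mul_comm, ← hm, ← rs_iter, rs_order]

/-- **the main theorem on automorphisms** -/
theorem gal_dense [Normal F N] [IsGalois F Ω] {p : ℕ} [hpp : Fact p.Prime] [CharP Ω p]
    (H : Clo N Ω p) {Γ : Type} [LinearOrderedCommGroupWithZero Γ] (v : Valuation F Γ)
    (hv : ∃ t : F, 1 < v t) (g : Ω ≃ₐ[N] Ω) (x : Ω) (hgx : g x ≠ x) (a e : F) (he : e ≠ 0) :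
    ∃ c : F, v (a - c ^ p) < v e := by
  classical
  let B : IntermediateField F Ω := (FiniteGaloisIntermediateField.adjoin F {x}).toIntermediateField
  have hBf : FiniteDimensional F B := (FiniteGaloisIntermediateField.adjoin F {x}).finiteDimensional
  have hBg : IsGalois F B := (FiniteGaloisIntermediateField.adjoin F {x}).isGalois
  have hxB : x ∈ B := FiniteGaloisIntermediateField.subset_adjoin F {x} (Set.mem_singleton x)
  have hchB : CharP B p := (algebraMap B Ω).charP_iff_charP p |>.2 inferInstance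
  obtain ⟨W, hW⟩ := exists_ext (B := B) v
  have hlt : ∀ x y : F, W.valuation (algebraMap F B x) < W.valuation (algebraMap F B y) ↔
      v x < v y := by
    intro x y
    rw [← not_le, hW, not_le]
  have hnt : ∃ t : F, 1 < W.valuation (algebraMap F B t) := by
    obtain ⟨t, ht⟩ := hv
    refine ⟨t, ?_⟩
    have := (hlt 1 t).2 (by rw [map_one]; exact ht)
    rwa [map_one, map_one] at this
  have hcl : ∀ b : B, Cl W.valuation F p b := by
    refine cl_all hnt (rs g B) (rs_star H g B) _ (rs_coprime H g B) (rs_order g B) ⟨x, hxB⟩ ?_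
    intro h
    apply hgx
    have h1 := congrArg (Subtype.val) h
    rwa [rs_coe] at h1
  obtain ⟨c, hc⟩ := dense_base hnt hcl a e he
  exact ⟨c, (hlt _ _).1 hc⟩

end

/-- if all automorphisms of the separable closure are trivial then the field is separably closed -/
theorem sepClosed_of_fixed {N : Type} [Field N]
    (h : ∀ (g : SeparableClosure N ≃ₐ[N] SeparableClosure N) (x : SeparableClosure N), g x = x) :
    IsSepClosed N := by
  have hgal2 : IsGalois N (SeparableClosure N) := IsSepClosure.isGalois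
  have hsurj : Function.Surjective (algebraMap N (SeparableClosure N)) := by
    intro x
    have h1 : x ∈ (⊥ : IntermediateField N (SeparableClosure N)) :=
      (InfiniteGalois.mem_bot_iff_fixed x).2 fun g => h g x
    exact IntermediateField.mem_bot.1 h1
  have hs : IsSepClosed (SeparableClosure N) := IsSepClosure.sep_closed N
  refine IsSepClosed.of_exists_root N fun f hf hirr hfs => ?_
  have hd : (f.map (algebraMap N (SeparableClosure N))).degree ≠ 0 := by
    rw [Polynomial.degree_map]
    exact (Polynomial.degree_pos_of_irreducible hirr).ne'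
  obtain ⟨x, hx⟩ := IsSepClosed.exists_root (f.map (algebraMap N (SeparableClosure N))) hd hfs.map
  obtain ⟨y, rfl⟩ := hsurj x
  refine ⟨y, ?_⟩
  rw [Polynomial.IsRoot, Polynomial.eval_map, Polynomial.eval₂_at_apply] at hx
  exact (map_eq_zero _).1 hx

end Pool.Agent.J4.H3.NG
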