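import Mathlib
import Pool.Agent.J4.H3.NG.Gal

/-!
# Artin-Schreier closedness goes down to relatively separably closed subfields
-/

set_option autoImplicit false

namespace Pool.Agent.J4.H3.NG

open Polynomial IntermediateField

/-- the degrees of separable elements do not drop over a field in which the base is separably
closed -/
theorem degree_eq {k K Ω : Type} [Field k] [Field K] [Field Ω] [Algebra k K] [Algebra K Ω]
    [Algebra k Ω] [IsScalarTower k K Ω] [IsAlgClosed Ω]
    (hsc : ∀ x : K, IsSeparable k x → ∃ y, algebraMap k K y = x) (θ : Ω) (hθ : IsSeparable k θ) :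
    (minpoly k θ).natDegree = (minpoly K θ).natDegree := by
  classical
  have hint : IsIntegral k θ := hθ.isIntegral
  have hintK : IsIntegral K θ := hint.tower_top
  have hdvd : minpoly K θ ∣ (minpoly k θ).map (algebraMap k K) :=
    minpoly.dvd_map_of_isScalarTower k K θ
  have hdvd' : (minpoly K θ).map (algebraMap K Ω) ∣ (minpoly k θ).map (algebraMap k Ω) := by
    have := Polynomial.map_dvd (algebraMap K Ω) hdvd
    rwa [Polynomial.map_map, ← IsScalarTower.algebraMap_eq] at this
  have hmon : (minpoly K θ).Monic := minpoly.monic hintK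
  have hmonΩ : ((minpoly K θ).map (algebraMap K Ω)).Monic := hmon.map _
  have hsplit : ((minpoly K θ).map (algebraMap K Ω)).Splits := IsAlgClosed.splits _
  have hroots : ∀ a ∈ ((minpoly K θ).map (algebraMap K Ω)).roots, a ∈ separableClosure k Ω := by
    intro a ha
    have h1 : IsRoot ((minpoly K θ).map (algebraMap K Ω)) a := Polynomial.isRoot_of_mem_roots ha
    have h2 : IsRoot ((minpoly k θ).map (algebraMap k Ω)) a := h1.dvd hdvd'
    have h3 : aeval a (minpoly k θ) = 0 := by
      rw [IsRoot, eval_map] at h2
      exact h2
    rw [mem_separableClosure_iff]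
    exact Polynomial.Separable.of_dvd hθ (minpoly.dvd k a h3)
  have hlift : (minpoly K θ).map (algebraMap K Ω) ∈
      Polynomial.lifts (algebraMap (separableClosure k Ω) Ω) := by
    rw [hsplit.eq_prod_roots_of_monic hmonΩ]
    refine multiset_prod_mem _ fun q hq => ?_
    rw [Multiset.mem_map] at hq
    obtain ⟨a, ha, rfl⟩ := hq
    rw [Polynomial.mem_lifts]
    refine ⟨X - C ⟨a, hroots a ha⟩, ?_⟩
    rw [Polynomial.map_sub, Polynomial.map_X, Polynomial.map_C]
    rfl
  have hcoef : ∀ i, ∃ y, algebraMap k K y = (minpoly K θ).coeff i := by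
    intro i
    apply hsc
    have h1 : algebraMap K Ω ((minpoly K θ).coeff i) ∈ separableClosure k Ω := by
      rw [Polynomial.lifts_iff_coeff_lifts] at hlift
      obtain ⟨z, hz⟩ := hlift i
      rw [coeff_map] at hz
      rw [← hz]
      exact z.2
    rw [mem_separableClosure_iff] at h1
    have h2 : minpoly k (algebraMap K Ω ((minpoly K θ).coeff i)) =
        minpoly k ((minpoly K θ).coeff i) :=
      minpoly.algebraMap_eq (algebraMap K Ω).injective _
    rwa [IsSeparable, h2] at h1
  have hlk : minpoly K θ ∈ Polynomial.lifts (algebraMap k K) := by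
    rw [Polynomial.lifts_iff_coeff_lifts]
    intro i
    obtain ⟨y, hy⟩ := hcoef i
    exact ⟨y, hy⟩
  obtain ⟨h, hh⟩ := (Polynomial.mem_lifts _).1 hlk
  have hz : aeval θ h = 0 := by
    have h1 := minpoly.aeval K θ
    rw [← hh, aeval_map_algebraMap] at h1
    exact h1
  have hne : h ≠ 0 := by
    rintro rfl
    rw [Polynomial.map_zero] at hh
    exact minpoly.ne_zero hintK hh.symm
  apply le_antisymm
  · calc (minpoly k θ).natDegree ≤ h.natDegree :=
        Polynomial.natDegree_le_of_dvd (minpoly.dvd k θ hz) hne
      _ = (minpoly K θ).natDegree := by rw [← hh, natDegree_map]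
  · have h1 := Polynomial.natDegree_le_of_dvd hdvd
      ((Polynomial.map_ne_zero_iff (algebraMap k K).injective).2 (minpoly.ne_zero hint))
    rwa [natDegree_map] at h1

/-- **Descent of Artin-Schreier roots.** Let `k` be separably closed in `K` and let all finite
extensions of `K` be closed under Artin-Schreier extensions. Then the same holds for the separable
extensions of `k`. -/
theorem descent {k K Ω : Type} [Field k] [Field K] [Field Ω] [Algebra k K] [Algebra K Ω]
    [Algebra k Ω] [IsScalarTower k K Ω] [IsAlgClosed Ω] {p : ℕ} [hpp : Fact p.Prime] [CharP Ω p]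
    (hsc : ∀ x : K, IsSeparable k x → ∃ y, algebraMap k K y = x)
    (hAS : ∀ (L : Type) [Field L] [Algebra K L] [FiniteDimensional K L] (a : L),
      ∃ x : L, x ^ p - x = a) (b : Ω) (hb : IsSeparable k b) :
    ∃ y ∈ IntermediateField.adjoin k {b}, y ^ p - y = b := by
  classical
  have hintb : IsIntegral k b := hb.isIntegral
  have hintbK : IsIntegral K b := hintb.tower_top
  have hfinL : FiniteDimensional K (IntermediateField.adjoin K {b}) :=
    IntermediateField.adjoin.finiteDimensional hintbK
  obtain ⟨y, hy⟩ := hAS (IntermediateField.adjoin K {b})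
    ⟨b, IntermediateField.mem_adjoin_simple_self K b⟩
  have hy' : (y : Ω) ^ p - y = b := by
    have := congrArg (fun z : IntermediateField.adjoin K {b} => (z : Ω)) hy
    exact this
  have hchS : CharP (separableClosure k Ω) p :=
    (algebraMap (separableClosure k Ω) Ω).charP_iff_charP p |>.2 inferInstance
  -- `y` is separable over `k`
  have hby : b ∈ separableClosure k Ω := (mem_separableClosure_iff).2 hb
  have hys : (y : Ω) ∈ separableClosure k Ω := by
    let q : (separableClosure k Ω)[X] := X ^ p - X - C ⟨b, hby⟩
    have hq : q.Separable := by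
      refine ⟨0, -1, ?_⟩
      simp only [q, derivative_sub, derivative_X_pow, derivative_X, derivative_C]
      rw [CharP.cast_eq_zero, C_0]
      ring
    have hqy : aeval (y : Ω) q = 0 := by
      simp only [q, map_sub, map_pow, aeval_X, aeval_C]
      rw [hy']
      exact sub_self _
    have h1 : IsSeparable (separableClosure k Ω) (y : Ω) :=
      Polynomial.Separable.of_dvd hq (minpoly.dvd _ _ hqy)
    have h2 : (y : Ω) ∈ separableClosure (separableClosure k Ω) Ω :=
      (mem_separableClosure_iff).2 h1
    rw [separableClosure.separableClosure_eq_bot, IntermediateField.mem_bot] at h2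
    obtain ⟨z, hz⟩ := h2
    rw [← hz]
    exact z.2
  -- the field generated by `b` and `y`
  let M : IntermediateField k Ω := IntermediateField.adjoin k {b, (y : Ω)}
  have hMS : M ≤ separableClosure k Ω := by
    rw [IntermediateField.adjoin_le_iff]
    rintro z (rfl | rfl)
    · exact hby
    · exact hys
  have hMfin : FiniteDimensional k M := by
    refine IntermediateField.finiteDimensional_adjoin ?_
    rintro z (rfl | rfl)
    · exact hintb
    · exact ((mem_separableClosure_iff).1 hys).isIntegral
  have hMsep : Algebra.IsSeparable k M := by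
    refine ⟨fun z => ?_⟩
    have h1 := (mem_separableClosure_iff).1 (hMS z.2)
    have h2 : minpoly k (algebraMap M Ω z) = minpoly k z :=
      minpoly.algebraMap_eq (algebraMap M Ω).injective _
    have h3 : minpoly k (z : Ω) = minpoly k z := h2
    rw [IsSeparable, h3] at h1
    exact h1
  obtain ⟨α, hα⟩ := Field.exists_primitive_element k M
  have hθs : IsSeparable k (α : Ω) := (mem_separableClosure_iff).1 (hMS α.2)
  have h1 : Module.finrank k M = (minpoly k (α : Ω)).natDegree := by
    have h2 : minpoly k (algebraMap M Ω α) = minpoly k α :=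
      minpoly.algebraMap_eq (algebraMap M Ω).injective _
    have h3 : minpoly k (α : Ω) = minpoly k α := h2
    rw [h3, ← IntermediateField.adjoin.finrank (IsIntegral.of_finite k α), hα]
    exact (IntermediateField.finrank_top').symm
  have h2 : (α : Ω) ∈ IntermediateField.adjoin K {b} := by
    have h3 : M ≤ (IntermediateField.adjoin K {b}).restrictScalars k := by
      rw [IntermediateField.adjoin_le_iff]
      rintro z (rfl | rfl)
      · exact IntermediateField.mem_adjoin_simple_self K z
      · exact y.2
    exact h3 α.2
  have h3 : (minpoly K (α : Ω)).natDegree ≤ Module.finrank K (IntermediateField.adjoin K {b}) := by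
    have h4 : minpoly K (algebraMap (IntermediateField.adjoin K {b}) Ω ⟨(α : Ω), h2⟩) =
        minpoly K (⟨(α : Ω), h2⟩ : IntermediateField.adjoin K {b}) :=
      minpoly.algebraMap_eq (algebraMap (IntermediateField.adjoin K {b}) Ω).injective _
    have h5 : minpoly K (α : Ω) = minpoly K (⟨(α : Ω), h2⟩ : IntermediateField.adjoin K {b}) := h4
    rw [h5]
    exact minpoly.natDegree_le _
  rw [IntermediateField.adjoin.finrank hintbK, ← degree_eq hsc _ hθs, ← h1,
    ← degree_eq hsc _ hb, ← IntermediateField.adjoin.finrank hintb] at h3
  have hle : IntermediateField.adjoin k {b} ≤ M :=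
    IntermediateField.adjoin.mono k _ _ (by
      intro z hz
      rw [Set.mem_singleton_iff] at hz
      exact Or.inl hz)
  have heq : IntermediateField.adjoin k {b} = M := IntermediateField.eq_of_le_of_finrank_le hle h3
  refine ⟨y, ?_, hy'⟩
  rw [heq]
  exact IntermediateField.subset_adjoin k _ (Or.inr rfl)

/-- the same for every algebraic extension of `k` -/
theorem descent' {k K E : Type} [Field k] [Field K] [Field E] [Algebra k K] [Algebra k E]
    [Algebra.IsAlgebraic k E] {p : ℕ} [hpp : Fact p.Prime] [CharP K p]
    (hsc : ∀ x : K, IsSeparable k x → ∃ y, algebraMap k K y = x)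
    (hAS : ∀ (L : Type) [Field L] [Algebra K L] [FiniteDimensional K L] (a : L),
      ∃ x : L, x ^ p - x = a) (b : E) (hb : IsSeparable k b) :
    ∃ y ∈ IntermediateField.adjoin k {b}, y ^ p - y = b := by
  have hchΩ : CharP (AlgebraicClosure K) p :=
    charP_of_injective_algebraMap (algebraMap K (AlgebraicClosure K)).injective p
  let φ : E →ₐ[k] AlgebraicClosure K := IsAlgClosed.lift
  have hs : IsSeparable k (φ b) := by
    rwa [IsSeparable, ← minpoly.algHom_eq φ φ.injective b] at hb
  obtain ⟨y, hy, hyb⟩ := descent (Ω := AlgebraicClosure K) hsc hAS (φ b) hs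
  have h1 : IntermediateField.adjoin k {φ b} = (IntermediateField.adjoin k {b}).map φ := by
    rw [IntermediateField.adjoin_map, Set.image_singleton]
  rw [h1] at hy
  obtain ⟨z, hz, rfl⟩ := hy
  refine ⟨z, hz, φ.injective ?_⟩
  rw [map_sub, map_pow]
  exact hyb

/-- **Artin-Schreier roots in algebraic extensions of relatively separably closed subfields** -/
theorem clo_alg {k K E : Type} [Field k] [Field K] [Field E] [Algebra k K] [Algebra k E]
    [Algebra.IsAlgebraic k E] {p : ℕ} [hpp : Fact p.Prime] [CharP K p]
    (hsc : ∀ x : K, IsSeparable k x → ∃ y, algebraMap k K y = x)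
    (hAS : ∀ (L : Type) [Field L] [Algebra K L] [FiniteDimensional K L] (a : L),
      ∃ x : L, x ^ p - x = a) (b : E) :
    ∃ y ∈ IntermediateField.adjoin k {b}, y ^ p - y = b := by
  have hchk : CharP k p := (algebraMap k K).charP_iff_charP p |>.2 inferInstance
  have hchE : CharP E p := charP_of_injective_algebraMap (algebraMap k E).injective p
  have hchS : CharP (separableClosure k E) p :=
    charP_of_injective_algebraMap (algebraMap k (separableClosure k E)).injective p
  have hexp : ExpChar (separableClosure k E) p := ExpChar.prime hpp.out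
  -- the statement for all elements with a separable power
  have key : ∀ (n : ℕ) (b : E), IsSeparable k (b ^ p ^ n) →
      ∃ y ∈ IntermediateField.adjoin k {b}, y ^ p - y = b := by
    intro n
    induction n with
    | zero =>
      intro b hb
      rw [pow_zero, pow_one] at hb
      exact descent' hsc hAS b hb
    | succ n ih =>
      intro b hb
      rw [pow_succ', pow_mul] at hb
      obtain ⟨y, hy, hyb⟩ := ih (b ^ p) hb
      have hbmem : b ∈ IntermediateField.adjoin k {b} := IntermediateField.mem_adjoin_simple_self k b
      have hle : IntermediateField.adjoin k {b ^ p} ≤ IntermediateField.adjoin k {b} := by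
        rw [IntermediateField.adjoin_simple_le_iff]
        exact pow_mem hbmem p
      refine ⟨y - b, sub_mem (hle hy) hbmem, ?_⟩
      rw [sub_pow_char]
      linear_combination hyb
  obtain ⟨n, y, hy⟩ := IsPurelyInseparable.pow_mem (separableClosure k E) p b
  refine key n b ?_
  rw [← hy]
  exact (mem_separableClosure_iff).1 y.2

end Pool.Agent.J4.H3.NG
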