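import Mathlib
import Pool.Agent.Y562.NN.FF3

/-!
# Valuation rings of fields of fractions of Noetherian domains whose value group is not divisible
-/

set_option autoImplicit false

namespace Pool.Agent.J4.H3.NG

/-- the values of a uniformizer -/
theorem dvr_value {F : Type} [Field F] (V : ValuationSubring F) (hV : IsDiscreteValuationRing V)
    {p : ℕ} (hp : 2 ≤ p) : V ≠ ⊤ ∧ ∃ a : F, a ≠ 0 ∧ ∀ c : F, V.valuation a ≠ V.valuation c ^ p := by
  obtain ⟨ϖ, hϖ⟩ := IsDiscreteValuationRing.exists_irreducible V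
  have hϖ0 : (ϖ : F) ≠ 0 := fun h => hϖ.ne_zero (Subtype.ext h)
  constructor
  · intro htop
    apply hϖ.not_isUnit
    have h1 : ∀ x : F, x ∈ V := by
      rw [htop]
      exact fun x => ValuationSubring.mem_top x
    exact IsUnit.of_mul_eq_one ⟨_, h1 (ϖ : F)⁻¹⟩ (Subtype.ext (mul_inv_cancel₀ hϖ0))
  · refine ⟨ϖ, hϖ0, fun c hc => ?_⟩
    have hle : V.valuation c ≤ 1 := by
      by_contra hcon
      have h1 : V.valuation (ϖ : F) ≤ 1 := (V.valuation_le_one_iff _).2 ϖ.2
      rw [hc] at h1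
      exact absurd h1 (not_le.2 (one_lt_pow₀ (not_le.1 hcon) (by omega)))
    rw [V.valuation_le_one_iff] at hle
    have hc0 : c ≠ 0 := by
      rintro rfl
      rw [map_zero, zero_pow (by omega), Valuation.zero_iff] at hc
      exact hϖ0 hc
    have hu1 : V.valuation ((ϖ : F) / c ^ p) = 1 := by
      rw [map_div₀, map_pow, hc]
      exact div_self (pow_ne_zero _ ((Valuation.ne_zero_iff _).2 hc0))
    have hu2 : (ϖ : F) / c ^ p ∈ V := (V.valuation_le_one_iff _).1 hu1.le
    let u : V := ⟨_, hu2⟩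
    obtain ⟨e, rfl⟩ : ∃ e, p = e + 2 := ⟨p - 2, by omega⟩
    have h5 : ϖ = (u * (⟨c, hle⟩ : V) ^ (e + 1)) * ⟨c, hle⟩ := by
      apply Subtype.ext
      change (ϖ : F) = (ϖ : F) / c ^ (e + 2) * c ^ (e + 1) * c
      field_simp
      ring
    have h6 := hϖ.isUnit_or_isUnit h5
    have h7 : IsUnit (⟨c, hle⟩ : V) := by
      rcases h6 with h6 | h6
      · exact (isUnit_pow_iff (by omega)).1 (isUnit_of_mul_isUnit_right h6)
      · exact h6
    have h8 := (V.valuation_eq_one_iff _).1 h7
    change V.valuation c = 1 at h8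
    rw [h8, one_pow] at hc
    exact hϖ.not_isUnit ((V.valuation_eq_one_iff _).2 hc)

/-- finite extensions of fields of fractions of Noetherian domains -/
theorem noeth_value (A : Type) [CommRing A] [IsDomain A] [IsNoetherianRing A] (hA : ¬ IsField A)
    (F : Type) [Field F] [Algebra (FractionRing A) F] [FiniteDimensional (FractionRing A) F]
    {p : ℕ} (hp : 2 ≤ p) : ∃ V : ValuationSubring F,
      V ≠ ⊤ ∧ ∃ a : F, a ≠ 0 ∧ ∀ c : F, V.valuation a ≠ V.valuation c ^ p := by
  let _ : Algebra A F := ((algebraMap (FractionRing A) F).comp (algebraMap A _)).toAlgebra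
  have htow : IsScalarTower A (FractionRing A) F := IsScalarTower.of_algebraMap_eq fun x => rfl
  obtain ⟨b, hb0, hb⟩ := Ring.exists_not_isUnit_of_not_isField hA
  have h1 : Ideal.span {b} ≠ ⊤ := by
    rw [Ne, Ideal.span_singleton_eq_top]
    exact hb
  obtain ⟨𝔮, h𝔮⟩ := Ideal.nonempty_minimalPrimes h1
  have hpr : 𝔮.IsPrime := h𝔮.1.1
  have h2 : 𝔮.height ≤ 1 := Ideal.height_le_one_of_isPrincipal_of_mem_minimalPrimes _ 𝔮 h𝔮
  have h3 : 𝔮 ≠ ⊥ := by
    rintro rfl
    exact hb0 (h𝔮.1.2 (Ideal.mem_span_singleton_self b))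
  obtain ⟨V, hV, -⟩ := Pool.Agent.Y562.NN.exists_dvr A (FractionRing A) F 𝔮 h3 h2
  exact ⟨V, dvr_value V hV hp⟩

/-- finitely generated extensions which are not algebraic -/
theorem fg_value (k F : Type) [Field k] [Field F] [Algebra k F]
    (hfg : (⊤ : IntermediateField k F).FG) (hnf : ¬ FiniteDimensional k F)
    {p : ℕ} (hp : 2 ≤ p) : ∃ V : ValuationSubring F,
      V ≠ ⊤ ∧ ∃ a : F, a ≠ 0 ∧ ∀ c : F, V.valuation a ≠ V.valuation c ^ p := by
  have hess : Algebra.EssFiniteType k F := IntermediateField.fg_top_iff.1 hfg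
  obtain ⟨s, hs⟩ := exists_finset_isTranscendenceBasis k F
  have hcard := hs.cardinalMk_eq_trdeg
  have halg := hs.isAlgebraic
  have hne : s.Nonempty := by
    by_contra hcon
    rw [Finset.not_nonempty_iff_eq_empty] at hcon
    subst hcon
    apply hnf
    have h2 : Algebra.IsAlgebraic k F := by
      rw [← trdeg_eq_zero_iff, ← hcard]
      simp
    exact Algebra.finite_of_essFiniteType_of_isAlgebraic
  have hinj : Function.Injective (MvPolynomial.aeval (R := k) ((↑) : s → F)) := hs.1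
  have halg' : Algebra.IsAlgebraic
      (MvPolynomial.aeval (R := k) ((↑) : s → F)).range F := by
    have key : ∀ S : Subalgebra k F, S = (MvPolynomial.aeval (R := k) ((↑) : s → F)).range →
        Algebra.IsAlgebraic S F →
        Algebra.IsAlgebraic (MvPolynomial.aeval (R := k) ((↑) : s → F)).range F := by
      rintro _ rfl h1
      exact h1
    exact key _ (Algebra.adjoin_range_eq_range_aeval k _) halg
  obtain ⟨_, hfd, -⟩ := Pool.Agent.Y562.NN.finite_frac _ hinj halg'
  refine noeth_value (MvPolynomial s k) ?_ F hp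
  obtain ⟨i, hi⟩ := hne
  intro hF
  obtain ⟨q, hq⟩ := hF.mul_inv_cancel (MvPolynomial.X_ne_zero (R := k) (⟨i, hi⟩ : s))
  have h1 := congrArg (MvPolynomial.eval (0 : s → k)) hq
  rw [map_mul, MvPolynomial.eval_X, Pi.zero_apply, zero_mul, map_one] at h1
  exact zero_ne_one h1

end Pool.Agent.J4.H3.NG
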