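import Mathlib
import Pool.Agent.J4.H3.NG.Val

/-!
# Valuations moved by an automorphism, and their residue fields
-/

set_option autoImplicit false

namespace Pool.Agent.J4.H3.NG

section crt

variable {B : Type} [Field B] {Γ : Type} [LinearOrderedCommGroupWithZero Γ]

/-- approximation for two valuations -/
theorem crt (w₁ w₂ : Valuation B Γ) (t : B) (h1 : w₁ t < 1) (h2 : 1 < w₂ t) (c : B)
    (hc : w₁ c ≤ 1) : ∃ c', w₁ (c' - c) < 1 ∧ w₂ c' ≤ 1 := by
  rcases le_or_gt (w₂ c) 1 with h | h
  · exact ⟨c, by rw [sub_self, map_zero]; exact zero_lt_one, h⟩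
  have htc : w₁ (t * c) < 1 := by
    rw [map_mul]
    calc w₁ t * w₁ c ≤ w₁ t * 1 := mul_le_mul_right hc _
      _ = w₁ t := mul_one _
      _ < 1 := h1
  have hu1 : w₁ (t + t * c) < 1 := Valuation.map_add_lt w₁ h1 htc
  have hu : w₁ (1 + (t + t * c)) = 1 := Valuation.map_one_add_of_lt w₁ hu1
  have hne : 1 + (t + t * c) ≠ 0 := by
    intro h0
    rw [h0, map_zero] at hu
    exact zero_ne_one hu
  refine ⟨c * (1 + t) / (1 + (t + t * c)), ?_, ?_⟩
  · have e1 : c * (1 + t) / (1 + (t + t * c)) - c = -(t * c * c) / (1 + (t + t * c)) := by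
      rw [eq_div_iff hne, sub_mul, div_mul_cancel₀ _ hne]
      ring
    rw [e1, map_div₀, hu, div_one, Valuation.map_neg, map_mul]
    calc w₁ (t * c) * w₁ c ≤ w₁ (t * c) * 1 := mul_le_mul_right hc _
      _ = w₁ (t * c) := mul_one _
      _ < 1 := htc
  · have e1 : w₂ (1 + t) = w₂ t := by
      rw [add_comm]
      exact Valuation.map_add_eq_of_lt_left w₂ (by rw [map_one]; exact h2)
    have ht0 : 0 < w₂ t := zero_lt_one.trans h2
    have e2 : w₂ t < w₂ (t * c) := by
      rw [map_mul]
      calc w₂ t = w₂ t * 1 := (mul_one _).symm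
        _ < w₂ t * w₂ c := mul_lt_mul_of_pos_left h ht0
    have e3 : w₂ (1 + (t + t * c)) = w₂ (t * c) := by
      rw [← add_assoc, add_comm]
      exact Valuation.map_add_eq_of_lt_left w₂ (by rw [e1]; exact e2)
    rw [map_div₀, map_mul, e1, e3, map_mul, mul_comm, div_self]
    exact mul_ne_zero ht0.ne' (zero_lt_one.trans h).ne'

/-- **Residue fields of moved valuations.** Let `g` be an automorphism of finite order of `B` which
does not preserve the valuation ring of `w`, such that all `g b - b` are of the form `z ^ p - z`. Then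
the residue field of `w` is closed under Artin-Schreier extensions. -/
theorem resid (w : Valuation B Γ) {p : ℕ} (hp : p.Prime) (g : B ≃+* B) (n : ℕ) (hn : 0 < n)
    (hg : ∀ x, g^[n] x = x) (hstar : ∀ b, ∃ z, z ^ p - z = g b - b) (x : B) (hx : w x ≤ 1)
    (hgx : 1 < w (g x)) (c : B) (hc : w c ≤ 1) : ∃ z, w z ≤ 1 ∧ w (z ^ p - z - c) < 1 := by
  -- an element of the other kind
  obtain ⟨y, hy1, hy2⟩ : ∃ y, w (g y) ≤ 1 ∧ 1 < w y := by
    by_contra hcon
    push Not at hcon
    have h1 : ∀ y, 1 < w y → 1 < w (g y) := by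
      intro y hy
      by_contra h
      exact absurd (hcon y (not_lt.1 h)) (not_le.2 hy)
    have h2 : ∀ i : ℕ, 1 < w (g^[i + 1] x) := by
      intro i
      induction i with
      | zero => exact hgx
      | succ i ih =>
        rw [Function.iterate_succ_apply']
        exact h1 _ ih
    obtain ⟨m, rfl⟩ : ∃ m, n = m + 1 := ⟨n - 1, by omega⟩
    have h6 := h2 m
    rw [hg] at h6
    exact absurd h6 (not_lt.2 hx)
  have hx0 : x ≠ 0 := by
    rintro rfl
    rw [map_zero, map_zero] at hgx
    exact absurd hgx (not_lt.2 zero_le_one)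
  have hwx : 0 < w x := zero_lt_iff.2 ((Valuation.ne_zero_iff _).2 hx0)
  have hwgx : 0 < w (g x) := zero_lt_one.trans hgx
  let t : B := y / x
  have ht : 1 < w t := by
    rw [map_div₀, one_lt_div₀ hwx]
    exact hx.trans_lt hy2
  have hgt : w (g t) < 1 := by
    rw [map_div₀ g, map_div₀, div_lt_one₀ hwgx]
    exact hy1.trans_lt hgx
  -- the element `c'`
  obtain ⟨c', hc1, hc2⟩ := crt w (w.comap (g.symm : B →+* B)) (g t) hgt
    (by
      change 1 < w (g.symm (g t))
      rw [g.symm_apply_apply]
      exact ht) c hc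
  have hc2' : w (g.symm c') ≤ 1 := hc2
  have hc' : w c' ≤ 1 := by
    have h1 : c' = (c' - c) + c := by ring
    rw [h1]
    exact (w.map_add _ _).trans (max_le hc1.le hc)
  let e : B := 1 / (1 + t)
  have h1t : w (1 + t) = w t := by
    rw [add_comm]
    exact Valuation.map_add_eq_of_lt_left w (by rw [map_one]; exact ht)
  have he : w e < 1 := by
    rw [map_div₀, map_one, h1t, div_lt_one₀ (zero_lt_one.trans ht)]
    exact ht
  have hu : w (1 + g t) = 1 := Valuation.map_one_add_of_lt w hgt
  have hune : 1 + g t ≠ 0 := by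
    intro h0
    rw [h0, map_zero] at hu
    exact zero_ne_one hu
  have hge : w (g e - 1) < 1 := by
    have h1 : g e - 1 = -(g t) / (1 + g t) := by
      change g (1 / (1 + t)) - 1 = _
      rw [map_div₀ g, map_one, map_add, map_one, eq_div_iff hune, sub_mul,
        div_mul_cancel₀ _ hune]
      ring
    rw [h1, map_div₀, hu, div_one, Valuation.map_neg]
    exact hgt
  obtain ⟨z, hz⟩ := hstar (e * g.symm c')
  have hmain : w (z ^ p - z - c) < 1 := by
    have h1 : z ^ p - z - c = ((g e - 1) * c' + (c' - c)) - e * g.symm c' := by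
      rw [hz, map_mul, g.apply_symm_apply]
      ring
    rw [h1]
    refine Valuation.map_sub_lt w (Valuation.map_add_lt w ?_ hc1) ?_
    · rw [map_mul]
      calc w (g e - 1) * w c' ≤ w (g e - 1) * 1 := mul_le_mul_right hc' _
        _ = w (g e - 1) := mul_one _
        _ < 1 := hge
    · rw [map_mul]
      calc w e * w (g.symm c') ≤ w e * 1 := mul_le_mul_right hc2' _
        _ = w e := mul_one _
        _ < 1 := he
  refine ⟨z, ?_, hmain⟩
  by_contra hcon
  rw [not_le] at hcon
  have h1 : w (z ^ p - z) ≤ 1 := by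
    have h2 : z ^ p - z = (z ^ p - z - c) + c := by ring
    rw [h2]
    exact (w.map_add _ _).trans (max_le hmain.le hc)
  have h2 : w z < w (z ^ p) := by
    rw [map_pow]
    exact lt_self_pow₀ hcon hp.one_lt
  rw [Valuation.map_sub_eq_of_lt_left w h2, map_pow] at h1
  exact absurd h1 (not_le.2 (one_lt_pow₀ hcon hp.ne_zero))

end crt

section descent

/-- **Descent of Artin-Schreier closedness** from an algebraic extension of bounded degree of a
perfect field. -/
theorem as_descent {k l : Type} [Field k] [Field l] [Algebra k l] [Algebra.IsSeparable k l]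
    {p : ℕ} [Fact p.Prime] [CharP k p] [FiniteDimensional k l]
    (h : ∀ a : l, ∃ y : l, y ^ p - y = a) (a : k) : ∃ y : k, y ^ p - y = a := by
  classical
  have hch : CharP (AlgebraicClosure l) p := by
    have h1 : CharP l p := charP_of_injective_algebraMap (algebraMap k l).injective p
    exact charP_of_injective_algebraMap (algebraMap l (AlgebraicClosure l)).injective p
  have hch' : ExpChar (AlgebraicClosure l) p := ExpChar.prime Fact.out
  obtain ⟨b, hb⟩ := Algebra.trace_surjective k l a
  obtain ⟨y, hy⟩ := h b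
  refine ⟨Algebra.trace k l y, ?_⟩
  apply (algebraMap k (AlgebraicClosure l)).injective
  rw [map_sub, map_pow, ← hb, ← hy, trace_eq_sum_embeddings (AlgebraicClosure l) (x := y),
    trace_eq_sum_embeddings (AlgebraicClosure l) (x := y ^ p - y), sum_pow_char,
    ← Finset.sum_sub_distrib]
  refine Finset.sum_congr rfl fun σ _ => ?_
  rw [map_sub, map_pow]

end descent

end Pool.Agent.J4.H3.NG
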