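import Mathlib
import Pool.Agent.J4.H3.NG.Res

/-!
# Residue fields of valuation rings in finite extensions
-/

set_option autoImplicit false
set_option linter.unusedVariables false

namespace Pool.Agent.J4.H3.NG

open IsLocalRing

variable {F B : Type} [Field F] [Field B] [Algebra F B]

/-- the inclusion of valuation rings -/
def inc (O : ValuationSubring B) : O.comap (algebraMap F B) →+* O where
  toFun x := ⟨algebraMap F B x, x.2⟩
  map_one' := Subtype.ext (map_one _)
  map_mul' x y := Subtype.ext (map_mul _ _ _)
  map_zero' := Subtype.ext (map_zero _)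
  map_add' x y := Subtype.ext (map_add _ _ _)

theorem inc_local (O : ValuationSubring B) : IsLocalHom (inc (F := F) O) := by
  refine ⟨fun x hx => ?_⟩
  obtain ⟨y, hy⟩ := hx.exists_right_inv
  have h1 : algebraMap F B x * (y : B) = 1 := congrArg Subtype.val hy
  have hx0 : (x : F) ≠ 0 := by
    intro h
    rw [h, map_zero, zero_mul] at h1
    exact zero_ne_one h1
  have h2 : (y : B) = algebraMap F B (x : F)⁻¹ := by
    rw [map_inv₀]
    exact eq_inv_of_mul_eq_one_right h1
  have h3 : (x : F)⁻¹ ∈ O.comap (algebraMap F B) := by
    rw [ValuationSubring.mem_comap, ← h2]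
    exact y.2
  exact IsUnit.of_mul_eq_one ⟨(x : F)⁻¹, h3⟩ (Subtype.ext (mul_inv_cancel₀ hx0))

/-- the residue field extension of a finite extension is finite -/
theorem residue_finite [FiniteDimensional F B] (O : ValuationSubring B)
    (f : ResidueField (O.comap (algebraMap F B)) →+* ResidueField O)
    (hf : ∀ x, f (residue _ x) = residue O (inc O x)) : f.Finite := by
  classical
  let _ : Algebra (ResidueField (O.comap (algebraMap F B))) (ResidueField O) := f.toAlgebra
  have hfa : ∀ x, algebraMap (ResidueField (O.comap (algebraMap F B))) (ResidueField O) x = f x :=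
    fun x => rfl
  change Module.Finite (ResidueField (O.comap (algebraMap F B))) (ResidueField O)
  rw [← Module.rank_lt_aleph0_iff]
  refine (rank_le (n := Module.finrank F B) fun s hs => ?_).trans_lt (Cardinal.natCast_lt_aleph0)
  have hsurj : Function.Surjective (residue O) := residue_surjective
  choose r hr using hsurj
  have hli : LinearIndependent F (fun i : s => ((r (i : ResidueField O) : O) : B)) := by
    rw [Fintype.linearIndependent_iff]
    intro g hg
    by_contra hcon
    push Not at hcon
    obtain ⟨i₀, hi₀⟩ := hcon
    obtain ⟨j, -, hj⟩ := Finset.exists_max_image Finset.univ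
      (fun i : s => O.valuation (algebraMap F B (g i))) ⟨i₀, Finset.mem_univ _⟩
    have hgj : g j ≠ 0 := by
      intro h
      have h1 := hj i₀ (Finset.mem_univ _)
      rw [h, map_zero, map_zero, le_zero_iff, Valuation.zero_iff, map_eq_zero] at h1
      exact hi₀ h1
    have hgj' : 0 < O.valuation (algebraMap F B (g j)) :=
      zero_lt_iff.2 ((Valuation.ne_zero_iff _).2 ((map_ne_zero _).2 hgj))
    have hmem : ∀ i, g i / g j ∈ O.comap (algebraMap F B) := by
      intro i
      rw [ValuationSubring.mem_comap, ← ValuationSubring.valuation_le_one_iff, map_div₀, map_div₀,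
        div_le_one₀ hgj']
      exact hj i (Finset.mem_univ _)
    have hsum : ∑ i : s, (inc O ⟨g i / g j, hmem i⟩ : O) * r (i : ResidueField O) = 0 := by
      apply Subtype.ext
      have h1 : (algebraMap F B (g j))⁻¹ * ∑ i : s, g i • ((r (i : ResidueField O) : O) : B) = 0 := by
        rw [hg, mul_zero]
      rw [Finset.mul_sum] at h1
      have h2 : ((∑ i : s, (inc O ⟨g i / g j, hmem i⟩ : O) * r (i : ResidueField O) : O) : B) =
          ∑ i : s, algebraMap F B (g i / g j) * ((r (i : ResidueField O) : O) : B) := by
        rw [← O.subtype_apply, map_sum]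
        rfl
      rw [h2, ZeroMemClass.coe_zero, ← h1]
      refine Finset.sum_congr rfl fun i _ => ?_
      rw [map_div₀, Algebra.smul_def, div_eq_inv_mul, mul_assoc]
    have h3 := congrArg (residue O) hsum
    rw [map_sum, map_zero] at h3
    rw [Fintype.linearIndependent_iff] at hs
    have h4 := hs (fun i => residue _ ⟨g i / g j, hmem i⟩) (by
      rw [← h3]
      refine Finset.sum_congr rfl fun i _ => ?_
      rw [Algebra.smul_def, hfa, hf, map_mul, hr]) j
    have h5 : (⟨g j / g j, hmem j⟩ : O.comap (algebraMap F B)) = 1 :=
      Subtype.ext (div_self hgj)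
    rw [h5, map_one] at h4
    exact one_ne_zero h4
  have h1 := hli.fintype_card_le_finrank
  rwa [Fintype.card_coe] at h1

/-- **Residue fields of the base.** -/
theorem residue_as [FiniteDimensional F B] (O : ValuationSubring B) (p : ℕ) [hpp : Fact p.Prime]
    [CharP F p] (hperf : ∀ a : F, ∃ b : F, O.valuation (algebraMap F B (a - b ^ p)) < 1)
    (has : ∀ c : B, O.valuation c ≤ 1 → ∃ z, O.valuation z ≤ 1 ∧ O.valuation (z ^ p - z - c) < 1)
    (a : ResidueField (O.comap (algebraMap F B))) : ∃ y, y ^ p - y = a := by
  classical
  have hloc := inc_local (F := F) O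
  let f : ResidueField (O.comap (algebraMap F B)) →+* ResidueField O := ResidueField.map (inc O)
  have hf : ∀ x, f (residue _ x) = residue O (inc O x) := fun x => rfl
  have hfin := residue_finite O f hf
  let _ : Algebra (ResidueField (O.comap (algebraMap F B))) (ResidueField O) := f.toAlgebra
  have hfd : FiniteDimensional (ResidueField (O.comap (algebraMap F B))) (ResidueField O) := hfin
  have hch : CharP (ResidueField (O.comap (algebraMap F B))) p := by
    have h1 : CharP (O.comap (algebraMap F B)) p :=
      RingHom.charP (O.comap (algebraMap F B)).subtype Subtype.val_injective p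
    exact CharP.of_ringHom_of_ne_zero (residue (O.comap (algebraMap F B))) p hpp.out.ne_zero
  have hperfk : PerfectField (ResidueField (O.comap (algebraMap F B))) := by
    have h1 : ExpChar (ResidueField (O.comap (algebraMap F B))) p := ExpChar.prime hpp.out
    have h2 : PerfectRing (ResidueField (O.comap (algebraMap F B))) p := by
      apply PerfectRing.ofSurjective
      intro x
      obtain ⟨x, rfl⟩ := residue_surjective x
      obtain ⟨b, hb⟩ := hperf x
      have hbm : b ∈ O.comap (algebraMap F B) := by
        rw [ValuationSubring.mem_comap, ← ValuationSubring.valuation_le_one_iff]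
        have h3 : O.valuation (algebraMap F B b) ^ p ≤ 1 := by
          have h4 : (algebraMap F B b) ^ p =
              algebraMap F B x - algebraMap F B (x - b ^ p) := by
            rw [← map_pow, ← map_sub]
            congr 1
            ring
          rw [← map_pow, h4]
          refine (Valuation.map_sub _ _ _).trans (max_le ?_ hb.le)
          rw [ValuationSubring.valuation_le_one_iff]
          exact x.2
        by_contra hcon
        exact absurd h3 (not_le.2 (one_lt_pow₀ (not_le.1 hcon) hpp.out.ne_zero))
      refine ⟨residue _ ⟨b, hbm⟩, ?_⟩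
      rw [frobenius_def, ← map_pow, ← sub_eq_zero, ← map_sub, residue_eq_zero_iff,
        mem_maximalIdeal, mem_nonunits_iff]
      intro hu
      have h3 := (ValuationSubring.valuation_eq_one_iff O _).1 (hu.map (inc O))
      have h4 : ((inc O ((⟨b, hbm⟩ : O.comap (algebraMap F B)) ^ p - x) : O) : B) =
          algebraMap F B (b ^ p - x) := rfl
      rw [h4, map_sub, Valuation.map_sub_swap, ← map_sub] at h3
      exact absurd h3 hb.ne
    exact PerfectRing.toPerfectField _ p
  have hsep : Algebra.IsSeparable (ResidueField (O.comap (algebraMap F B))) (ResidueField O) :=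
    inferInstance
  refine as_descent (l := ResidueField O) (fun a => ?_) a
  obtain ⟨c, rfl⟩ := residue_surjective a
  obtain ⟨z, hz1, hz2⟩ := has c ((ValuationSubring.valuation_le_one_iff _ _).2 c.2)
  rw [ValuationSubring.valuation_le_one_iff] at hz1
  refine ⟨residue O ⟨z, hz1⟩, ?_⟩
  rw [← map_pow, ← map_sub, ← sub_eq_zero, ← map_sub, residue_eq_zero_iff,
    ValuationSubring.valuation_lt_one_iff]
  exact hz2

end Pool.Agent.J4.H3.NG
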