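import Mathlib
import Pool.Agent.J4.H3.NG.Gal
import Pool.Agent.J4.H3.NG.Res2

/-!
# Residue fields of the base field
-/

set_option autoImplicit false

namespace Pool.Agent.J4.H3.NG

open IsLocalRing

variable {F N Ω : Type} [Field F] [Field N] [Field Ω] [Algebra F N] [Algebra F Ω] [Algebra N Ω]
  [IsScalarTower F N Ω]

/-- **Residue fields.** If an automorphism over `N` moves a valuation ring then the residue field of
its restriction to `F` is closed under Artin-Schreier extensions. -/
theorem gal_resid [Normal F N] [IsGalois F Ω] {p : ℕ} [hpp : Fact p.Prime] [CharP Ω p]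
    (H : Clo N Ω p) (V : ValuationSubring Ω) (g : Ω ≃ₐ[N] Ω) (x : Ω) (hx : x ∈ V) (hgx : g x ∉ V)
    (a : ResidueField (V.comap (algebraMap F Ω))) : ∃ y, y ^ p - y = a := by
  classical
  let B : IntermediateField F Ω := (FiniteGaloisIntermediateField.adjoin F {x}).toIntermediateField
  have hBf : FiniteDimensional F B := (FiniteGaloisIntermediateField.adjoin F {x}).finiteDimensional
  have hBg : IsGalois F B := (FiniteGaloisIntermediateField.adjoin F {x}).isGalois
  have hxB : x ∈ B := FiniteGaloisIntermediateField.subset_adjoin F {x} (Set.mem_singleton x)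
  have hchB : CharP B p := (algebraMap B Ω).charP_iff_charP p |>.2 inferInstance
  have hchF : CharP F p := (algebraMap F Ω).charP_iff_charP p |>.2 inferInstance
  let O : ValuationSubring B := V.comap (algebraMap B Ω)
  have hO : O.comap (algebraMap F B) = V.comap (algebraMap F Ω) := rfl
  have hO1 : ∀ b : B, O.valuation b ≤ 1 ↔ (b : Ω) ∈ V := fun b =>
    ValuationSubring.valuation_le_one_iff O b
  have h1 : O.valuation ⟨x, hxB⟩ ≤ 1 := (hO1 _).2 hx
  have h2 : 1 < O.valuation (rs g B ⟨x, hxB⟩) := by
    rw [← not_le, hO1, rs_coe]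
    exact hgx
  have hne : rs g B ⟨x, hxB⟩ ≠ 0 := by
    intro h
    rw [h, map_zero] at h2
    exact absurd h2 (not_lt.2 zero_le_one)
  have hv : ∃ t : F, 1 < O.valuation.comap (algebraMap F B) t := by
    obtain ⟨k, y, hk1, -, hy0, hy⟩ := exists_pow O.valuation (rs g B ⟨x, hxB⟩) hne (F := F)
    refine ⟨y, ?_⟩
    rw [Valuation.comap_apply, ← hy]
    exact one_lt_pow₀ h2 (by omega)
  have hx2 : g x ≠ x := fun h => hgx (by rw [h]; exact hx)
  refine residue_as O p (fun a => ?_) (fun c hc => ?_) a
  · obtain ⟨c, hc⟩ := gal_dense (F := F) H (O.valuation.comap (algebraMap F B)) hv g x hx2 a 1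
      one_ne_zero
    refine ⟨c, ?_⟩
    rw [map_one] at hc
    exact hc
  · exact resid O.valuation hpp.out (rs g B).toRingEquiv (orderOf (rs g B)) (orderOf_pos _)
      (rs_order g B) (rs_star H g B) ⟨x, hxB⟩ h1 h2 c hc

end Pool.Agent.J4.H3.NG
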