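import Mathlib
import Pool.Agent.N616.NH.HEN
import Pool.Agent.J4.H3.NG.Val

/-!
# A valuation ring which is not henselian is moved by an automorphism of the separable closure
-/

set_option autoImplicit false

namespace Pool.Agent.J4.H3.NG

open Pool.Agent.N616.NH Polynomial

/-- uniqueness of the extension implies the henselian property -/
theorem hens_of_fixed {N : Type} [Field N] (A : ValuationSubring N)
    (W : ValuationSubring (AlgebraicClosure N)) (hW : W.comap (algebraMap N _) = A)
    (h : ∀ (g : AlgebraicClosure N ≃ₐ[N] AlgebraicClosure N) (x : AlgebraicClosure N),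
      x ∈ W → g x ∈ W) : HenselianLocalRing A := by
  classical
  refine HEN N A fun L _ _ _ e he => ?_
  let φ : L →ₐ[N] AlgebraicClosure N := IsAlgClosed.lift
  have hAW : ∀ x : N, algebraMap N (AlgebraicClosure N) x ∈ W ↔ x ∈ A := by
    intro x
    rw [← hW, ValuationSubring.mem_comap]
  have heq : RI A L = (W.comap (φ : L →+* AlgebraicClosure N)).toSubring := by
    ext z
    constructor
    · rintro ⟨f, hf, hz⟩
      change φ z ∈ W
      let _ : Algebra A (AlgebraicClosure N) :=
        ((algebraMap N (AlgebraicClosure N)).comp A.subtype).toAlgebra
      let ι : A →+* W :=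
        { toFun := fun x => ⟨algebraMap N (AlgebraicClosure N) x, (hAW x).2 x.2⟩
          map_one' := Subtype.ext (map_one _)
          map_mul' := fun _ _ => Subtype.ext (map_mul _ _ _)
          map_zero' := Subtype.ext (map_zero _)
          map_add' := fun _ _ => Subtype.ext (map_add _ _ _) }
      have h1 : IsIntegral W (φ z) := by
        refine ⟨f.map ι, hf.map ι, ?_⟩
        rw [eval₂_map]
        have h2 : (algebraMap W (AlgebraicClosure N)).comp ι =
            (φ : L →+* AlgebraicClosure N).comp ((algebraMap N L).comp A.subtype) := by
          ext x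
          change algebraMap N (AlgebraicClosure N) x = φ (algebraMap N L x)
          rw [φ.commutes]
        rw [h2]
        have h3 := congrArg (φ : L →+* AlgebraicClosure N) hz
        rw [hom_eval₂, map_zero] at h3
        exact h3
      obtain ⟨y, hy⟩ := IsIntegrallyClosed.isIntegral_iff.1 h1
      rw [← hy]
      exact y.2
    · intro hz
      have hz' : φ z ∈ W := hz
      have hint : IsIntegral N z := IsIntegral.of_finite N z
      have hmon : (minpoly N z).Monic := minpoly.monic hint
      have hsplit : ((minpoly N z).map (algebraMap N (AlgebraicClosure N))).Splits :=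
        IsAlgClosed.splits _
      have hlift : (minpoly N z).map (algebraMap N (AlgebraicClosure N)) ∈
          Polynomial.lifts (algebraMap W (AlgebraicClosure N)) := by
        rw [hsplit.eq_prod_roots_of_monic (hmon.map _)]
        refine multiset_prod_mem _ fun q hq => ?_
        rw [Multiset.mem_map] at hq
        obtain ⟨a, ha, rfl⟩ := hq
        have haW : a ∈ W := by
          have h1 : IsRoot ((minpoly N z).map (algebraMap N (AlgebraicClosure N))) a :=
            isRoot_of_mem_roots ha
          have h2 : aeval a (minpoly N z) = 0 := by
            rw [IsRoot, eval_map] at h1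
            exact h1
          have h3 : minpoly N (φ z) = minpoly N z := minpoly.algHom_eq φ φ.injective z
          have h4 : minpoly N (φ z) = minpoly N a := by
            refine minpoly.eq_of_irreducible_of_monic ?_ ?_ ?_
            · rw [h3]
              exact minpoly.irreducible hint
            · rw [h3]
              exact h2
            · rw [h3]
              exact hmon
          obtain ⟨g, hg⟩ := (isConjRoot_iff_exists_algEquiv).1 (h4 : IsConjRoot N (φ z) a)
          have h5 : a = g.symm (φ z) := by
            rw [← hg, g.symm_apply_apply]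
          rw [h5]
          exact h _ _ hz'
        rw [Polynomial.mem_lifts]
        refine ⟨X - C ⟨a, haW⟩, ?_⟩
        rw [Polynomial.map_sub, Polynomial.map_X, Polynomial.map_C]
        rfl
      have hcoef : ∀ i, (minpoly N z).coeff i ∈ A := by
        intro i
        rw [Polynomial.lifts_iff_coeff_lifts] at hlift
        obtain ⟨y, hy⟩ := hlift i
        rw [coeff_map] at hy
        rw [← hAW, ← hy]
        exact y.2
      have hl2 : minpoly N z ∈ Polynomial.lifts (A.subtype) := by
        rw [Polynomial.lifts_iff_coeff_lifts]
        exact fun i => ⟨⟨_, hcoef i⟩, rfl⟩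
      obtain ⟨f, hf1, -, hf2⟩ := lifts_and_natDegree_eq_and_monic hl2 hmon
      refine ⟨f, hf2, ?_⟩
      rw [← eval₂_map, hf1]
      exact minpoly.aeval N z
  have hloc : IsLocalRing (RI A L) := by
    rw [heq]
    exact (inferInstance : IsLocalRing (W.comap (φ : L →+* AlgebraicClosure N)))
  have hj : Jac (RI A L) = IsLocalRing.maximalIdeal (RI A L) :=
    IsLocalRing.jacobson_eq_maximalIdeal _ bot_ne_top
  rw [hj] at he ⊢
  have h1 : e ^ 2 - e = e * (e - 1) := by ring
  rw [h1] at he
  have hpr : (IsLocalRing.maximalIdeal (RI A L)).IsPrime := inferInstance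
  rcases hpr.mem_or_mem he with h2 | h2
  · exact Or.inl h2
  · right
    have h3 : 1 - e = -(e - 1) := by ring
    rw [h3]
    exact neg_mem h2

/-- **Moved valuation rings.** A valuation ring which is not henselian is moved by an automorphism
of the algebraic closure. -/
theorem moved {N : Type} [Field N] (A : ValuationSubring N) (hA : ¬ HenselianLocalRing A) :
    ∃ W : ValuationSubring (AlgebraicClosure N), W.comap (algebraMap N _) = A ∧
      ∃ (g : AlgebraicClosure N ≃ₐ[N] AlgebraicClosure N) (x : AlgebraicClosure N),
        x ∈ W ∧ g x ∉ W := by
  classical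
  obtain ⟨W, hW⟩ := exists_ext (B := AlgebraicClosure N) A.valuation
  have hWA : W.comap (algebraMap N _) = A := by
    ext x
    have h1 := hW x 1
    rw [map_one, map_one, map_one, ValuationSubring.valuation_le_one_iff,
      ValuationSubring.valuation_le_one_iff] at h1
    exact h1
  have hex : ∃ (g : AlgebraicClosure N ≃ₐ[N] AlgebraicClosure N) (x : AlgebraicClosure N),
      x ∈ W ∧ g x ∉ W := by
    by_contra hcon
    push Not at hcon
    exact hA (hens_of_fixed A W hWA hcon)
  exact ⟨W, hWA, hex⟩

end Pool.Agent.J4.H3.NG
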