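import Mathlib
import Pool.Agent.J4.H3.NG.AS
import Pool.Agent.J4.H3.NG.Gal2
import Pool.Agent.J4.H3.NG.Hens

/-!
# Normal extensions
-/

set_option autoImplicit false
set_option linter.unusedSectionVars false

namespace Pool.Agent.J4.H3.NG

open IsLocalRing

section frob

variable {Ω : Type} [Field Ω] {p : ℕ} [hpp : Fact p.Prime] [CharP Ω p]

/-- roots of Artin-Schreier equations are rational expressions in their Frobenius powers -/
theorem frob_iter (L : Subfield Ω) (y b : Ω) (hb : b ∈ L) (h : y ^ p - y = b) (m : ℕ)
    (hm : y ^ p ^ m ∈ L) : y ∈ L := by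
  induction m with
  | zero => rwa [pow_zero, pow_one] at hm
  | succ m ih =>
    apply ih
    have h1 : y ^ p ^ (m + 1) = y ^ p ^ m + b ^ p ^ m := by
      rw [pow_succ', pow_mul, ← add_pow_char_pow]
      congr 1
      linear_combination h
    rw [h1] at hm
    have h2 : y ^ p ^ m = (y ^ p ^ m + b ^ p ^ m) - b ^ p ^ m := by ring
    rw [h2]
    exact sub_mem hm (pow_mem hb _)

theorem frob_mono (L : Subfield Ω) (y : Ω) (m m' : ℕ) (hm : y ^ p ^ m ∈ L) (h : m ≤ m') :
    y ^ p ^ m' ∈ L := by
  obtain ⟨d, rfl⟩ := Nat.exists_eq_add_of_le h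
  rw [pow_add, pow_mul]
  exact pow_mem hm _

end frob

variable {F N : Type} [Field F] [Field N] [Algebra F N]

/-- the embedding of the separable closures -/
noncomputable def emb (F N : Type) [Field F] [Field N] [Algebra F N] :
    separableClosure F N →ₐ[F] separableClosure F (AlgebraicClosure N) :=
  ((IsScalarTower.toAlgHom F N (AlgebraicClosure N)).comp (separableClosure F N).val).codRestrict
    (separableClosure F (AlgebraicClosure N)).toSubalgebra (fun x => by
      have h1 : IsSeparable F (x : N) := (mem_separableClosure_iff).1 x.2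
      change algebraMap N (AlgebraicClosure N) x ∈ separableClosure F (AlgebraicClosure N)
      rw [mem_separableClosure_iff, IsSeparable,
        minpoly.algebraMap_eq (algebraMap N (AlgebraicClosure N)).injective]
      exact h1)

theorem emb_coe (x : separableClosure F N) :
    ((emb F N x : separableClosure F (AlgebraicClosure N)) : AlgebraicClosure N) =
      algebraMap N (AlgebraicClosure N) (x : N) := rfl

/-- Artin-Schreier roots over the separable part of a normal extension -/
theorem clo_normal [Algebra.IsAlgebraic F N] {p : ℕ} [hpp : Fact p.Prime] [CharP N p]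
    (H : ∀ b : AlgebraicClosure N, ∃ y ∈ IntermediateField.adjoin N {b}, y ^ p - y = b) :
    @Clo (separableClosure F N) (separableClosure F (AlgebraicClosure N)) _ _
      (emb F N).toRingHom.toAlgebra p := by
  let _ : Algebra (separableClosure F N) (separableClosure F (AlgebraicClosure N)) :=
    (emb F N).toRingHom.toAlgebra
  have hchΩ : CharP (AlgebraicClosure N) p :=
    charP_of_injective_algebraMap (algebraMap N (AlgebraicClosure N)).injective p
  have hchN₁ : CharP (separableClosure F N) p :=
    (algebraMap (separableClosure F N) N).charP_iff_charP p |>.2 inferInstance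
  have hexp : ExpChar (separableClosure F N) p := ExpChar.prime hpp.out
  intro b
  obtain ⟨y, hy, hyb⟩ := H (b : AlgebraicClosure N)
  let L : Subfield (AlgebraicClosure N) :=
    (IntermediateField.adjoin (separableClosure F N) {b}).toSubfield.map
      (algebraMap (separableClosure F (AlgebraicClosure N)) (AlgebraicClosure N))
  have hbL : (b : AlgebraicClosure N) ∈ L :=
    ⟨b, IntermediateField.mem_adjoin_simple_self _ b, rfl⟩
  have hm : ∃ m : ℕ, y ^ p ^ m ∈ L := by
    clear hyb
    induction hy using IntermediateField.adjoin_induction with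
    | mem x hx =>
      rw [Set.mem_singleton_iff] at hx
      subst hx
      refine ⟨0, ?_⟩
      rwa [pow_zero, pow_one]
    | algebraMap x =>
      obtain ⟨n, z, hz⟩ := IsPurelyInseparable.pow_mem (separableClosure F N) p x
      refine ⟨n, ⟨emb F N z, ?_, ?_⟩⟩
      · exact (IntermediateField.adjoin (separableClosure F N) {b}).algebraMap_mem z
      · rw [← map_pow, ← hz]
        rfl
    | add x z _ _ hx hz =>
      obtain ⟨m, hm⟩ := hx
      obtain ⟨m', hm'⟩ := hz
      refine ⟨max m m', ?_⟩
      rw [add_pow_char_pow]
      exact add_mem (frob_mono L x m _ hm (le_max_left _ _))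
        (frob_mono L z m' _ hm' (le_max_right _ _))
    | inv x _ hx =>
      obtain ⟨m, hm⟩ := hx
      refine ⟨m, ?_⟩
      rw [inv_pow]
      exact inv_mem hm
    | mul x z _ _ hx hz =>
      obtain ⟨m, hm⟩ := hx
      obtain ⟨m', hm'⟩ := hz
      refine ⟨max m m', ?_⟩
      rw [mul_pow]
      exact mul_mem (frob_mono L x m _ hm (le_max_left _ _))
        (frob_mono L z m' _ hm' (le_max_right _ _))
  obtain ⟨m, hm⟩ := hm
  obtain ⟨z, hz, hzy⟩ := frob_iter L y b hbL hyb m hm
  refine ⟨z, hz, ?_⟩
  apply (algebraMap (separableClosure F (AlgebraicClosure N)) (AlgebraicClosure N)).injective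
  rw [map_sub, map_pow, hzy]
  exact hyb

/-- **Normal extensions.** An automorphism of the algebraic closure of `N` over `N`, and the
corresponding automorphism of the separable closure of `F`. -/
theorem transfer [Normal F N] {p : ℕ} [hpp : Fact p.Prime] [CharP N p]
    (H : ∀ b : AlgebraicClosure N, ∃ y ∈ IntermediateField.adjoin N {b}, y ^ p - y = b)
    (g : AlgebraicClosure N ≃ₐ[N] AlgebraicClosure N) (x : AlgebraicClosure N) :
    ∃ (_ : Algebra (separableClosure F N) (separableClosure F (AlgebraicClosure N)))
      (_ : IsScalarTower F (separableClosure F N) (separableClosure F (AlgebraicClosure N))),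
      Clo (separableClosure F N) (separableClosure F (AlgebraicClosure N)) p ∧
      ∃ (g' : separableClosure F (AlgebraicClosure N) ≃ₐ[separableClosure F N]
          separableClosure F (AlgebraicClosure N)) (n : ℕ)
          (x' : separableClosure F (AlgebraicClosure N)),
        (x' : AlgebraicClosure N) = x ^ p ^ n ∧ ((g' x' : _) : AlgebraicClosure N) = (g x) ^ p ^ n := by
  let hA : Algebra (separableClosure F N) (separableClosure F (AlgebraicClosure N)) :=
    (emb F N).toRingHom.toAlgebra
  have hT : IsScalarTower F (separableClosure F N) (separableClosure F (AlgebraicClosure N)) :=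
    IsScalarTower.of_algebraMap_eq fun x => ((emb F N).commutes x).symm
  have hchΩ : CharP (AlgebraicClosure N) p :=
    charP_of_injective_algebraMap (algebraMap N (AlgebraicClosure N)).injective p
  have hchF : CharP F p := (algebraMap F N).charP_iff_charP p |>.2 inferInstance
  have halg : Algebra.IsAlgebraic F (AlgebraicClosure N) :=
    Algebra.IsAlgebraic.trans F N (AlgebraicClosure N)
  have hcl : IsAlgClosure F (AlgebraicClosure N) := ⟨inferInstance, halg⟩
  have hnor : Normal F (AlgebraicClosure N) := IsAlgClosure.normal F (AlgebraicClosure N)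
  have hgal : IsGalois F (separableClosure F (AlgebraicClosure N)) := inferInstance
  have hexp : ExpChar (separableClosure F (AlgebraicClosure N)) p :=
    expChar_of_injective_algebraMap
      (algebraMap F (separableClosure F (AlgebraicClosure N))).injective p
  refine ⟨hA, hT, clo_normal H, ?_⟩
  let g₁ : separableClosure F (AlgebraicClosure N) ≃ₐ[F] separableClosure F (AlgebraicClosure N) :=
    (g.restrictScalars F).restrictNormal (separableClosure F (AlgebraicClosure N))
  have hg₁ : ∀ z : separableClosure F (AlgebraicClosure N),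
      ((g₁ z : separableClosure F (AlgebraicClosure N)) : AlgebraicClosure N) = g z := fun z =>
    AlgEquiv.restrictNormal_commutes (g.restrictScalars F)
      (separableClosure F (AlgebraicClosure N)) z
  let g' : separableClosure F (AlgebraicClosure N) ≃ₐ[separableClosure F N]
      separableClosure F (AlgebraicClosure N) :=
    AlgEquiv.ofRingEquiv (f := g₁.toRingEquiv) (fun z => by
      apply Subtype.ext
      have h1 := hg₁ (emb F N z)
      rw [emb_coe, g.commutes] at h1
      exact h1)
  obtain ⟨n, x', hx'⟩ := IsPurelyInseparable.pow_mem (separableClosure F (AlgebraicClosure N)) p x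
  refine ⟨g', n, x', hx', ?_⟩
  have h1 := hg₁ x'
  change ((g₁ x' : separableClosure F (AlgebraicClosure N)) : AlgebraicClosure N) = _
  rw [h1]
  have h2 : (x' : AlgebraicClosure N) = x ^ p ^ n := hx'
  rw [h2, map_pow]

theorem pow_ne {Ω : Type} [Field Ω] {p : ℕ} [hpp : Fact p.Prime] [CharP Ω p] {x y : Ω}
    (h : x ≠ y) (n : ℕ) : x ^ p ^ n ≠ y ^ p ^ n := by
  intro h1
  apply h
  have h2 : (x - y) ^ p ^ n = 0 := by rw [sub_pow_char_pow, h1, sub_self]
  exact sub_eq_zero.1 (pow_eq_zero_iff (pow_ne_zero _ hpp.out.ne_zero) |>.1 h2)

/-- **Density of the `p`-th powers.** -/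
theorem normal_dense [Normal F N] {p : ℕ} [hpp : Fact p.Prime] [CharP N p]
    (H : ∀ b : AlgebraicClosure N, ∃ y ∈ IntermediateField.adjoin N {b}, y ^ p - y = b)
    (hN : ¬ IsSepClosed N) {Γ : Type} [LinearOrderedCommGroupWithZero Γ] (v : Valuation F Γ)
    (hv : ∃ t : F, 1 < v t) (a e : F) (he : e ≠ 0) : ∃ c : F, v (a - c ^ p) < v e := by
  have hchΩ : CharP (AlgebraicClosure N) p :=
    charP_of_injective_algebraMap (algebraMap N (AlgebraicClosure N)).injective p
  have hchF : CharP F p := (algebraMap F N).charP_iff_charP p |>.2 inferInstance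
  have hchS : CharP (separableClosure F (AlgebraicClosure N)) p :=
    charP_of_injective_algebraMap
      (algebraMap F (separableClosure F (AlgebraicClosure N))).injective p
  have halg : Algebra.IsAlgebraic F (AlgebraicClosure N) :=
    Algebra.IsAlgebraic.trans F N (AlgebraicClosure N)
  have hcl : IsAlgClosure F (AlgebraicClosure N) := ⟨inferInstance, halg⟩
  have hnor : Normal F (AlgebraicClosure N) := IsAlgClosure.normal F (AlgebraicClosure N)
  obtain ⟨g, x, hx⟩ : ∃ (g : AlgebraicClosure N ≃ₐ[N] AlgebraicClosure N)
      (x : AlgebraicClosure N), g x ≠ x := by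
    by_contra hcon
    push Not at hcon
    apply hN
    refine sepClosed_of_fixed fun g x => ?_
    apply (algebraMap (SeparableClosure N) (AlgebraicClosure N)).injective
    rw [← AlgEquiv.liftNormal_commutes g (AlgebraicClosure N) x, hcon]
  obtain ⟨hA, hT, hClo, g', n, x', hx', hgx'⟩ := transfer (F := F) H g x
  refine gal_dense (F := F) (N := separableClosure F N)
    (Ω := separableClosure F (AlgebraicClosure N)) hClo v hv g' x' ?_ a e he
  intro h
  have h1 : ((g' x' : _) : AlgebraicClosure N) = x' := congrArg Subtype.val h
  rw [hgx', hx'] at h1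
  exact pow_ne hx n h1

/-- **Residue fields.** -/
theorem normal_resid [Normal F N] {p : ℕ} [hpp : Fact p.Prime] [CharP N p]
    (H : ∀ b : AlgebraicClosure N, ∃ y ∈ IntermediateField.adjoin N {b}, y ^ p - y = b)
    (A : ValuationSubring N) (hA : ¬ HenselianLocalRing A)
    (a : ResidueField (A.comap (algebraMap F N))) : ∃ y, y ^ p - y = a := by
  have hchΩ : CharP (AlgebraicClosure N) p :=
    charP_of_injective_algebraMap (algebraMap N (AlgebraicClosure N)).injective p
  have hchF : CharP F p := (algebraMap F N).charP_iff_charP p |>.2 inferInstance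
  have hchS : CharP (separableClosure F (AlgebraicClosure N)) p :=
    charP_of_injective_algebraMap
      (algebraMap F (separableClosure F (AlgebraicClosure N))).injective p
  have halg : Algebra.IsAlgebraic F (AlgebraicClosure N) :=
    Algebra.IsAlgebraic.trans F N (AlgebraicClosure N)
  have hcl : IsAlgClosure F (AlgebraicClosure N) := ⟨inferInstance, halg⟩
  have hnor : Normal F (AlgebraicClosure N) := IsAlgClosure.normal F (AlgebraicClosure N)
  obtain ⟨W, hW, g, x, hx, hgx⟩ := moved A hA
  obtain ⟨hA', hT, hClo, g', n, x', hx', hgx'⟩ := transfer (F := F) H g x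
  let V : ValuationSubring (separableClosure F (AlgebraicClosure N)) :=
    W.comap (algebraMap (separableClosure F (AlgebraicClosure N)) (AlgebraicClosure N))
  have hV : V.comap (algebraMap F (separableClosure F (AlgebraicClosure N))) =
      A.comap (algebraMap F N) := by
    rw [← hW]
    rfl
  have key : ∀ a : ResidueField
      (V.comap (algebraMap F (separableClosure F (AlgebraicClosure N)))), ∃ y, y ^ p - y = a := by
    intro a
    refine gal_resid (F := F) (N := separableClosure F N)
      (Ω := separableClosure F (AlgebraicClosure N)) hClo V g' x' ?_ ?_ a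
    · change (x' : AlgebraicClosure N) ∈ W
      rw [hx']
      exact pow_mem hx _
    · change ((g' x' : _) : AlgebraicClosure N) ∉ W
      rw [hgx']
      intro h
      apply hgx
      rw [← ValuationSubring.valuation_le_one_iff] at h ⊢
      rw [map_pow] at h
      by_contra hcon
      refine absurd h (not_le.2 (one_lt_pow₀ (not_le.1 hcon) ?_))
      exact pow_ne_zero _ hpp.out.ne_zero
  rw [hV] at key
  exact key a

end Pool.Agent.J4.H3.NG
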