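import Mathlib
import Pool.Agent.J4.H3.NG.Norm
import Pool.Agent.J4.H3.NG.Dvr
import Pool.Agent.N616.NH.NP3
import Pool.Agent.W882.Nip3.Bound

/-!
# Normal extensions and NIP fields of positive characteristic
-/

set_option autoImplicit false

namespace Pool.Agent.J4.H3.NG

open IsLocalRing Pool.Agent.W882.Nip3 Pool.Agent.N616.NH

/-- finite extensions of infinite NIP fields are closed under Artin-Schreier extensions -/
theorem as_closed (K : Type) [Field K] [FirstOrder.Ring.CompatibleRing K] [hinf : Infinite K]
    (p : ℕ) [hpp : Fact p.Prime] [CharP K p] (hK : NIPField K ∨ ∃ n, NIPnField n K)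
    (L : Type) [Field L] [Algebra K L] [FiniteDimensional K L] (a : L) :
    ∃ x : L, x ^ p - x = a := by
  obtain ⟨n, hn⟩ : ∃ n, NIPnField n K := by
    rcases hK with h | h
    · exact ⟨1, nip_one h⟩
    · exact h
  exact NP_.as_closed_n DFA DFB K p hinf n hn L a

section

variable {K : Type} [Field K] {p : ℕ} [hpp : Fact p.Prime] [CharP K p]
  (hAS : ∀ (L : Type) [Field L] [Algebra K L] [FiniteDimensional K L] (a : L),
    ∃ x : L, x ^ p - x = a)
  {k N : Type} [Field k] [Field N] [Algebra k K] [Algebra k N] [Algebra.IsAlgebraic k N]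
  (hk : ∀ x : K, IsSeparable k x → ∃ y, algebraMap k K y = x)

include hAS hk

theorem clo_all (b : AlgebraicClosure N) :
    ∃ y ∈ IntermediateField.adjoin N {b}, y ^ p - y = b := by
  have halg : Algebra.IsAlgebraic k (AlgebraicClosure N) :=
    Algebra.IsAlgebraic.trans k N (AlgebraicClosure N)
  obtain ⟨y, hy, hyb⟩ := clo_alg (K := K) (E := AlgebraicClosure N) hk hAS b
  refine ⟨y, ?_, hyb⟩
  have h3 : IntermediateField.adjoin k {b} ≤
      (IntermediateField.adjoin N {b}).restrictScalars k := by
    rw [IntermediateField.adjoin_le_iff]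
    rintro z rfl
    exact IntermediateField.mem_adjoin_simple_self N z
  exact h3 hy

/-- the general theorem -/
theorem main_gen {F : Type} [Field F] [Algebra F N] [Normal F N] (O : ValuationSubring F)
    (hO : O ≠ ⊤) :
    (¬ IsSepClosed N →
      ∀ a e : F, e ≠ 0 → ∃ c : F, O.valuation (a - c ^ p) < O.valuation e) ∧
    (∀ A : ValuationSubring N, A.comap (algebraMap F N) = O → ¬ HenselianLocalRing A →
      ∀ a : ResidueField O, ∃ y, y ^ p - y = a) := by
  have hchk : CharP k p := (algebraMap k K).charP_iff_charP p |>.2 inferInstance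
  have hchN : CharP N p := charP_of_injective_algebraMap (algebraMap k N).injective p
  have H : ∀ b : AlgebraicClosure N, ∃ y ∈ IntermediateField.adjoin N {b}, y ^ p - y = b :=
    clo_all hAS hk
  constructor
  · intro hN
    refine normal_dense (F := F) H hN O.valuation ?_
    by_contra hcon
    push Not at hcon
    apply hO
    rw [eq_top_iff]
    intro x _
    exact (O.valuation_le_one_iff x).1 (hcon x)
  · rintro A rfl hA a
    exact normal_resid (F := F) H A hA a

end

/-- density implies that the value group is divisible by `p` -/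
theorem value_of_dense {F : Type} [Field F] (O : ValuationSubring F) {p : ℕ}
    (h : ∀ a e : F, e ≠ 0 → ∃ c : F, O.valuation (a - c ^ p) < O.valuation e) (hp : p ≠ 0) (a : F) :
    ∃ c : F, O.valuation a = O.valuation c ^ p := by
  by_cases ha : a = 0
  · exact ⟨0, by rw [ha, map_zero, zero_pow hp]⟩
  obtain ⟨c, hc⟩ := h a a ha
  refine ⟨c, ?_⟩
  rw [← map_pow]
  have h1 : c ^ p = a - (a - c ^ p) := by ring
  rw [h1, Valuation.map_sub_eq_of_lt_left O.valuation hc]

/-- density implies that the residue field is perfect -/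
theorem perfect_of_dense {F : Type} [Field F] (O : ValuationSubring F) {p : ℕ}
    (h : ∀ a e : F, e ≠ 0 → ∃ c : F, O.valuation (a - c ^ p) < O.valuation e) (hp : p ≠ 0)
    (a : ResidueField O) : ∃ c, c ^ p = a := by
  obtain ⟨a, rfl⟩ := residue_surjective a
  obtain ⟨c, hc⟩ := h a 1 one_ne_zero
  rw [map_one] at hc
  have hcO : c ∈ O := by
    rw [← O.valuation_le_one_iff]
    by_contra hcon
    have h2 : O.valuation (c ^ p) ≤ 1 := by
      have h1 : c ^ p = a - (a - c ^ p) := by ring
      rw [h1]
      exact (Valuation.map_sub _ _ _).trans (max_le ((O.valuation_le_one_iff _).2 a.2) hc.le)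
    rw [map_pow] at h2
    exact absurd h2 (not_le.2 (one_lt_pow₀ (not_le.1 hcon) hp))
  refine ⟨residue O ⟨c, hcO⟩, ?_⟩
  rw [← map_pow, eq_comm, ← sub_eq_zero, ← map_sub, residue_eq_zero_iff,
    ValuationSubring.valuation_lt_one_iff]
  exact hc

/-- every valuation ring has an extension -/
theorem exists_over {F N : Type} [Field F] [Field N] [Algebra F N] (O : ValuationSubring F)
    (hO : O ≠ ⊤) : ∃ A : ValuationSubring N, A ≠ ⊤ ∧ A.comap (algebraMap F N) = O := by
  obtain ⟨W, hW⟩ := exists_ext (B := N) O.valuation
  have h1 : W.comap (algebraMap F N) = O := by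
    ext x
    have h1 := hW x 1
    rw [map_one, map_one, map_one, ValuationSubring.valuation_le_one_iff,
      ValuationSubring.valuation_le_one_iff] at h1
    exact h1
  refine ⟨W, ?_, h1⟩
  rintro rfl
  apply hO
  rw [← h1]
  ext x
  simp

/-- the embedding of the separable part -/
theorem galois_closure {F K N : Type} [Field F] [Field K] [Field N] [Algebra F K] [Algebra F N]
    [Normal F N] {p : ℕ} [hpp : Fact p.Prime] [CharP K p]
    (hAS : ∀ (L : Type) [Field L] [Algebra K L] [FiniteDimensional K L] (a : L),
      ∃ x : L, x ^ p - x = a)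
    (hN : ∀ x : K, IsSeparable F x → ∃ y : N, Polynomial.aeval y (minpoly F x) = 0)
    (O : ValuationSubring F) (hO : O ≠ ⊤)
    (hd : ∃ a e : F, e ≠ 0 ∧ ∀ c : F, O.valuation e ≤ O.valuation (a - c ^ p)) :
    IsSepClosed N := by
  obtain ⟨φ⟩ : Nonempty (separableClosure F K →ₐ[F] N) := by
    refine Field.nonempty_algHom_of_exists_root fun x => ?_
    have h1 : IsSeparable F (x : K) := (mem_separableClosure_iff).1 x.2
    obtain ⟨y, hy⟩ := hN x h1
    have h2 : minpoly F (algebraMap (separableClosure F K) K x) = minpoly F x :=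
      minpoly.algebraMap_eq (algebraMap (separableClosure F K) K).injective _
    exact ⟨y, by rw [← h2]; exact hy⟩
  let _ : Algebra (separableClosure F K) N := φ.toRingHom.toAlgebra
  have ht1 : IsScalarTower F (separableClosure F K) N :=
    IsScalarTower.of_algebraMap_eq fun x => (φ.commutes x).symm
  have halg : Algebra.IsAlgebraic (separableClosure F K) N :=
    Algebra.IsAlgebraic.tower_top (K := F) (separableClosure F K)
  have hsc : ∀ x : K, IsSeparable (separableClosure F K) x →
      ∃ y, algebraMap (separableClosure F K) K y = x := by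
    intro x hx
    have h2 : x ∈ separableClosure (separableClosure F K) K :=
      (mem_separableClosure_iff).2 hx
    rw [separableClosure.separableClosure_eq_bot, IntermediateField.mem_bot] at h2
    exact h2
  by_contra hcon
  obtain ⟨a, e, he, h⟩ := hd
  obtain ⟨c, hc⟩ := (main_gen hAS hsc (N := N) O hO).1 hcon a e he
  exact absurd hc (not_lt.2 (h c))

end Pool.Agent.J4.H3.NG
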